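import Mathlib
import Pool.Graph.R_pool_sql_team_8f841797.H13.Ramsey

/-!
# Finite hypergraphs with large chromatic number and many sparse sets

Helper file for problem MP_64e5f1_lc.
-/

set_option autoImplicit false

namespace Pool.Agent.H629.NK

open Finset

/-- Vertices: a head and a tail of fewer than `d` elements. -/
abbrev Vx (M d : ℕ) : Type := {p : Fin M × Finset (Fin M) // p.1 ∉ p.2 ∧ p.2.card < d}

/-- Edges: `d` vertices, of any two the head of one lies in the tail of the other. -/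
def Edge {M d : ℕ} (E : Finset (Vx M d)) : Prop :=
  E.card = d ∧ ∀ v ∈ E, ∀ w ∈ E, v ≠ w → v.1.1 ∈ w.1.2 ∨ w.1.1 ∈ v.1.2

theorem exp_bound (d : ℕ) (hd : 2 ≤ d) (k : ℕ) (hk : k < d) :
    (1 : ℝ) / 3 ≤ (1 - 1 / d) ^ k := by
  obtain ⟨m, rfl⟩ : ∃ m, d = m + 2 := ⟨d - 2, by omega⟩
  have hm : (0 : ℝ) < (m : ℝ) + 1 := by positivity
  have h0 : (0 : ℝ) ≤ 1 - 1 / ((m + 2 : ℕ) : ℝ) := by
    rw [sub_nonneg, div_le_one (by positivity)]
    push_cast
    linarith
  have h1 : (1 - 1 / ((m + 2 : ℕ) : ℝ)) ≤ 1 := by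
    have : (0 : ℝ) ≤ 1 / ((m + 2 : ℕ) : ℝ) := by positivity
    linarith
  refine le_trans ?_ (pow_le_pow_of_le_one h0 h1 (show k ≤ m + 1 by omega))
  have h2 : (1 - 1 / ((m + 2 : ℕ) : ℝ)) = (1 + 1 / ((m : ℝ) + 1))⁻¹ := by
    push_cast
    field_simp
    ring
  rw [h2, inv_pow]
  have h3 : (1 + 1 / ((m : ℝ) + 1)) ^ (m + 1) ≤ 3 := by
    have h4 : 1 + 1 / ((m : ℝ) + 1) ≤ Real.exp (1 / ((m : ℝ) + 1)) := by
      have := Real.add_one_le_exp (1 / ((m : ℝ) + 1))
      linarith
    calc (1 + 1 / ((m : ℝ) + 1)) ^ (m + 1) ≤ (Real.exp (1 / ((m : ℝ) + 1))) ^ (m + 1) :=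
          pow_le_pow_left₀ (by positivity) h4 _
      _ = Real.exp 1 := by
          rw [← Real.exp_nat_mul]
          congr 1
          push_cast
          field_simp
      _ ≤ 3 := by have := Real.exp_one_lt_d9; linarith
  rw [one_div]
  exact inv_anti₀ (by positivity) h3

/-- The sparse set attached to a colouring of the ground set. -/
noncomputable def sparse {M d : ℕ} (t : ℕ) (h : Fin M → Fin d) : Finset (Vx M d) := by
  classical
  exact univ.filter (fun v => (h v.1.1 : ℕ) < t ∧ ∀ y ∈ v.1.2, h y ≠ h v.1.1)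

theorem sparse_card {M d : ℕ} (t : ℕ) (h : Fin M → Fin d) (E : Finset (Vx M d)) (hE : Edge E)
    [DecidableEq (Vx M d)] : (sparse t h ∩ E).card ≤ t := by
  classical
  refine (card_le_card_of_injOn (t := range t) (fun v => (h v.1.1 : ℕ)) ?_ ?_).trans
    (card_range t).le
  · intro v hv
    rw [mem_coe, mem_inter] at hv
    have := hv.1
    simp only [sparse, mem_filter, mem_univ, true_and] at this
    exact mem_coe.2 (mem_range.2 this.1)
  · intro v hv w hw hvw
    rw [mem_coe, mem_inter] at hv hw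
    by_contra hne
    have h1 := hv.1
    have h2 := hw.1
    simp only [sparse, mem_filter, mem_univ, true_and] at h1 h2
    have h3 : h v.1.1 = h w.1.1 := Fin.ext hvw
    rcases hE.2 v hv.2 w hw.2 hne with h4 | h4
    · exact h2.2 _ h4 h3
    · exact h1.2 _ h4 h3.symm

theorem count_one {M d : ℕ} (hd : 2 ≤ d) (v : Vx M d) (j : Fin d) :
    (d : ℝ) ^ M / (3 * d) ≤ ((univ.filter (fun h : Fin M → Fin d => h v.1.1 = j ∧
      ∀ y ∈ v.1.2, h y ≠ j)).card : ℝ) := by
  classical
  have hd0 : (0 : ℝ) < d := by positivity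
  have e1 : (univ.filter (fun h : Fin M → Fin d => h v.1.1 = j ∧ ∀ y ∈ v.1.2, h y ≠ j)) =
      Fintype.piFinset (fun y => if y = v.1.1 then {j} else
        if y ∈ v.1.2 then univ.erase j else univ) := by
    ext h
    simp only [mem_filter, mem_univ, true_and, Fintype.mem_piFinset]
    constructor
    · rintro ⟨h1, h2⟩ y
      by_cases hy : y = v.1.1
      · simp [hy, h1]
      · by_cases hy2 : y ∈ v.1.2
        · simp [hy, hy2, h2 y hy2]
        · simp [hy, hy2]
    · intro hh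
      constructor
      · simpa using hh v.1.1
      · intro y hy
        have h1 := hh y
        have h2 : y ≠ v.1.1 := fun h => v.2.1 (h ▸ hy)
        simpa [h2, hy] using h1
  rw [e1, Fintype.card_piFinset]
  push_cast
  have e2 : ∀ y : Fin M, (((if y = v.1.1 then ({j} : Finset (Fin d)) else
        if y ∈ v.1.2 then univ.erase j else univ).card : ℕ) : ℝ) =
      d * (if y = v.1.1 then 1 / (d : ℝ) else if y ∈ v.1.2 then 1 - 1 / (d : ℝ) else 1) := by
    intro y
    by_cases hy : y = v.1.1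
    · simp [hy, hd0.ne']
    · by_cases hy2 : y ∈ v.1.2
      · rw [if_neg hy, if_neg hy, if_pos hy2, if_pos hy2, card_erase_of_mem (mem_univ _), card_univ,
          Fintype.card_fin, Nat.cast_sub (by omega)]
        field_simp
        simp
      · simp [hy, hy2]
  rw [prod_congr rfl (fun y _ => e2 y), prod_mul_distrib, prod_const, card_univ, Fintype.card_fin]
  have e3 : ∏ y : Fin M, (if y = v.1.1 then 1 / (d : ℝ) else
      if y ∈ v.1.2 then 1 - 1 / (d : ℝ) else 1) = (1 / d) * (1 - 1 / (d : ℝ)) ^ v.1.2.card := by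
    rw [← prod_subset (subset_univ (insert v.1.1 v.1.2)), prod_insert v.2.1]
    · rw [if_pos rfl]
      congr 1
      rw [← prod_const]
      apply prod_congr rfl
      intro y hy
      have h2 : y ≠ v.1.1 := fun h => v.2.1 (h ▸ hy)
      rw [if_neg h2, if_pos hy]
    · intro y _ hy
      rw [mem_insert, not_or] at hy
      rw [if_neg hy.1, if_neg hy.2]
  rw [e3, div_eq_mul_inv]
  apply mul_le_mul_of_nonneg_left _ (by positivity)
  have := exp_bound d hd v.1.2.card v.2.2
  calc (3 * (d : ℝ))⁻¹ = (1 / d) * (1 / 3) := by field_simp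
    _ ≤ _ := mul_le_mul_of_nonneg_left this (by positivity)

theorem count {M d : ℕ} (hd : 2 ≤ d) (t : ℕ) (ht : t ≤ d) (v : Vx M d) :
    (t : ℝ) * ((d : ℝ) ^ M / (3 * d)) ≤
      ((univ.filter (fun h : Fin M → Fin d => v ∈ sparse t h)).card : ℝ) := by
  classical
  have e1 : ((univ.filter (fun j : Fin d => (j : ℕ) < t)).biUnion
      (fun j => univ.filter (fun h : Fin M → Fin d => h v.1.1 = j ∧ ∀ y ∈ v.1.2, h y ≠ j))) ⊆
      univ.filter (fun h : Fin M → Fin d => v ∈ sparse t h) := by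
    intro h hh
    rw [mem_biUnion] at hh
    obtain ⟨j, hj, hh⟩ := hh
    rw [mem_filter] at hj hh
    rw [mem_filter]
    refine ⟨mem_univ _, ?_⟩
    simp only [sparse, mem_filter, mem_univ, true_and]
    rw [hh.2.1]
    exact ⟨hj.2, hh.2.2⟩
  have e2 := card_le_card e1
  rw [card_biUnion] at e2
  · have e3 : (univ.filter (fun j : Fin d => (j : ℕ) < t)).card = t := by
      have : (univ.filter (fun j : Fin d => (j : ℕ) < t)) =
          (univ : Finset (Fin t)).map (Fin.castLEEmb ht) := by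
        ext j
        simp only [mem_filter, mem_univ, true_and, mem_map, Fin.castLEEmb_apply]
        constructor
        · intro hj
          exact ⟨⟨j, hj⟩, rfl⟩
        · rintro ⟨i, rfl⟩
          exact i.2
      rw [this, card_map, card_univ, Fintype.card_fin]
    have e4 : (t : ℝ) * ((d : ℝ) ^ M / (3 * d)) ≤
        ∑ j ∈ univ.filter (fun j : Fin d => (j : ℕ) < t), ((univ.filter (fun h : Fin M → Fin d =>
          h v.1.1 = j ∧ ∀ y ∈ v.1.2, h y ≠ j)).card : ℝ) := by
      calc (t : ℝ) * ((d : ℝ) ^ M / (3 * d)) =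
          ∑ j ∈ univ.filter (fun j : Fin d => (j : ℕ) < t), ((d : ℝ) ^ M / (3 * d)) := by
            rw [sum_const, e3, nsmul_eq_mul]
        _ ≤ _ := sum_le_sum (fun j _ => count_one hd v j)
    refine e4.trans ?_
    exact_mod_cast e2
  · intro i _ j _ hij
    rw [Function.onFun, disjoint_left]
    intro h h1 h2
    rw [mem_filter] at h1 h2
    exact hij (h1.2.1.symm.trans h2.2.1)

/-- Every weight has a sparse set which is not too light. -/
theorem exists_sparse {M d : ℕ} (hd : 2 ≤ d) (t : ℕ) (ht : t ≤ d) (ν : Vx M d → ℝ)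
    (hν : ∀ v, 0 ≤ ν v) :
    ∃ h : Fin M → Fin d, (t : ℝ) / (3 * d) * ∑ v, ν v ≤ ∑ v ∈ sparse t h, ν v := by
  classical
  by_contra hcon
  push Not at hcon
  have hd0 : (0 : ℝ) < d := by positivity
  have : Nonempty (Fin d) := ⟨⟨0, by omega⟩⟩
  have h1 : ∑ h : Fin M → Fin d, ∑ v ∈ sparse t h, ν v <
      ∑ h : Fin M → Fin d, (t : ℝ) / (3 * d) * ∑ v, ν v :=
    sum_lt_sum_of_nonempty univ_nonempty (fun h _ => hcon h)
  rw [sum_const, card_univ, Fintype.card_fun, Fintype.card_fin, Fintype.card_fin,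
    nsmul_eq_mul] at h1
  have h2 : ∑ h : Fin M → Fin d, ∑ v ∈ sparse t h, ν v =
      ∑ v : Vx M d, ((univ.filter (fun h : Fin M → Fin d => v ∈ sparse t h)).card : ℝ) * ν v := by
    have : ∀ h : Fin M → Fin d, ∑ v ∈ sparse t h, ν v =
        ∑ v : Vx M d, if v ∈ sparse t h then ν v else 0 := by
      intro h
      rw [← sum_filter]
      congr 1
      ext v
      simp
    rw [sum_congr rfl (fun h _ => this h), sum_comm]
    apply sum_congr rfl
    intro v _
    rw [← sum_filter, sum_const, nsmul_eq_mul]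
  rw [h2] at h1
  have h3 : ∑ v : Vx M d, ((t : ℝ) * ((d : ℝ) ^ M / (3 * d))) * ν v ≤
      ∑ v : Vx M d, ((univ.filter (fun h : Fin M → Fin d => v ∈ sparse t h)).card : ℝ) * ν v :=
    sum_le_sum (fun v _ => mul_le_mul_of_nonneg_right (count hd t ht v) (hν v))
  rw [← mul_sum] at h3
  have h4 : ((d ^ M : ℕ) : ℝ) * ((t : ℝ) / (3 * d) * ∑ v, ν v) =
      ((t : ℝ) * ((d : ℝ) ^ M / (3 * d))) * ∑ v, ν v := by
    push_cast
    ring
  linarith

theorem insert_uniq {M : ℕ} {x x' : Fin M} {s s' : Finset (Fin M)}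
    (h : insert x' s' = insert x s) (hx : x ∉ s) (hx' : x' ∉ s') (h1 : ∀ y ∈ s, x < y)
    (h2 : ∀ y ∈ s', x' < y) : x' = x ∧ s' = s := by
  have e : x' = x := by
    have k1 : x' ∈ insert x s := h ▸ mem_insert_self _ _
    have k2 : x ∈ insert x' s' := h.symm ▸ mem_insert_self _ _
    rw [mem_insert] at k1 k2
    rcases k1 with k1 | k1
    · exact k1
    · rcases k2 with k2 | k2
      · exact k2.symm
      · exact absurd (h1 _ k1) (not_lt.2 (h2 _ k2).le)
  subst e
  refine ⟨rfl, ?_⟩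
  rw [← erase_insert hx', h, erase_insert hx]

/-- Every colouring with few colours has a monochromatic edge. -/
theorem exists_mono (d χ : ℕ) (hd : 2 ≤ d) : ∃ M : ℕ, ∀ c : Vx M d → ℕ, (∀ v, c v < χ) →
    ∃ E : Finset (Vx M d), Edge E ∧ ∃ i, ∀ v ∈ E, c v = i := by
  classical
  obtain ⟨M, hM⟩ := Pool.Agent.H13.Ramsey.ramsey (Fin (χ + 1)) d (2 * d)
  refine ⟨M, fun c hc => ?_⟩
  obtain ⟨H, -, hH, γ, hγ⟩ := hM (Fin M) univ (by rw [card_univ, Fintype.card_fin])
    (fun P => if h : ∃ x : Fin M, ∃ s : Finset (Fin M), insert x s = P ∧ x ∉ s ∧ s.card < d ∧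
        ∀ y ∈ s, x < y then
      ⟨c ⟨(h.choose, h.choose_spec.choose), h.choose_spec.choose_spec.2.1,
        h.choose_spec.choose_spec.2.2.1⟩, (hc _).trans (Nat.lt_succ_self _)⟩
      else 0)
  -- enumerate `H`
  let x0 : Fin (2 * d) ↪o Fin M := H.orderEmbOfFin hH
  let x : ℕ → Fin M := fun j => if h : j < 2 * d then x0 ⟨j, h⟩ else x0 ⟨0, by omega⟩
  have hxH : ∀ j, x j ∈ H := by
    intro j
    by_cases h : j < 2 * d
    · simp only [x, dif_pos h]
      exact H.orderEmbOfFin_mem hH _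
    · simp only [x, dif_neg h]
      exact H.orderEmbOfFin_mem hH _
  have hx : ∀ i j, i < j → j < 2 * d → x i < x j := by
    intro i j hij hj
    simp only [x, dif_pos hj, dif_pos (hij.trans hj)]
    exact x0.strictMono hij
  have hxi : Set.InjOn x (Set.Iio (2 * d)) := by
    intro i hi j hj hij
    by_contra hne
    rcases lt_or_gt_of_ne hne with h | h
    · exact (hx i j h hj).ne hij
    · exact (hx j i h hi).ne hij.symm
  let T : ℕ → Finset (Fin M) := fun i => (Ioo i (i + d)).image x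
  have hT : ∀ i < d, ∀ y ∈ T i, x i < y := by
    intro i hi y hy
    rw [mem_image] at hy
    obtain ⟨j, hj, rfl⟩ := hy
    rw [mem_Ioo] at hj
    exact hx i j hj.1 (by omega)
  have hTx : ∀ i < d, x i ∉ T i := fun i hi h => lt_irrefl _ (hT i hi _ h)
  have hTc : ∀ i < d, (T i).card + 1 = d := by
    intro i hi
    rw [card_image_of_injOn, Nat.card_Ioo]
    · omega
    · refine hxi.mono ?_
      intro j hj
      rw [mem_coe, mem_Ioo] at hj
      show j < 2 * d
      omega
  have hTs : ∀ i < d, x i ∉ T i ∧ (T i).card < d := fun i hi =>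
    ⟨hTx i hi, by have := hTc i hi; omega⟩
  let v : ℕ → Vx M d := fun i => if h : i < d then ⟨(x i, T i), hTs i h⟩ else
    ⟨(x 0, T 0), hTs 0 (by omega)⟩
  have hv : ∀ i, ∀ h : i < d, v i = ⟨(x i, T i), hTs i h⟩ := fun i h => dif_pos h
  have hvc : ∀ i < d, c (v i) = (γ : ℕ) := by
    intro i hi
    have h1 := hγ (insert (x i) (T i)) (by
      rw [insert_subset_iff]
      refine ⟨hxH i, ?_⟩
      intro y hy
      rw [mem_image] at hy
      obtain ⟨j, hj, rfl⟩ := hy
      exact hxH j) (by rw [card_insert_of_notMem (hTx i hi), hTc i hi])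
    have h2 : ∃ x' : Fin M, ∃ s : Finset (Fin M), insert x' s = insert (x i) (T i) ∧ x' ∉ s ∧
        s.card < d ∧ ∀ y ∈ s, x' < y :=
      ⟨x i, T i, rfl, hTx i hi, (hTs i hi).2, hT i hi⟩
    rw [dif_pos h2] at h1
    obtain ⟨h3, h4⟩ := insert_uniq h2.choose_spec.choose_spec.1 (hTx i hi)
      h2.choose_spec.choose_spec.2.1 (hT i hi) h2.choose_spec.choose_spec.2.2.2
    rw [← h1, hv i hi]
    show c _ = c _
    congr 1
    exact Subtype.ext (Prod.ext h3.symm h4.symm)
  have hvi : Set.InjOn v (range d : Finset ℕ) := by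
    intro i hi j hj hij
    rw [mem_coe, mem_range] at hi hj
    rw [hv i hi, hv j hj] at hij
    have h1 : x i = x j := congrArg (fun v : Vx M d => v.1.1) hij
    exact hxi (show i < 2 * d by omega) (show j < 2 * d by omega) h1
  refine ⟨(range d).image v, ⟨by rw [card_image_of_injOn hvi, card_range], ?_⟩, γ, ?_⟩
  · intro a ha b hb hab
    rw [mem_image] at ha hb
    obtain ⟨i, hi, rfl⟩ := ha
    obtain ⟨j, hj, rfl⟩ := hb
    rw [mem_range] at hi hj
    rw [hv i hi, hv j hj]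
    have hne : i ≠ j := fun h => hab (by rw [h])
    rcases lt_or_gt_of_ne hne with h | h
    · right
      exact mem_image.2 ⟨j, mem_Ioo.2 ⟨h, by omega⟩, rfl⟩
    · left
      exact mem_image.2 ⟨i, mem_Ioo.2 ⟨h, by omega⟩, rfl⟩
  · intro a ha
    rw [mem_image] at ha
    obtain ⟨i, hi, rfl⟩ := ha
    exact hvc i (mem_range.1 hi)

/-- The hypergraph, placed on an interval of natural numbers. -/
theorem block (d χ a : ℕ) (hd : 2 ≤ d) (hχ : 1 ≤ χ) : ∃ b, a < b ∧ ∃ H : Set (Finset ℕ),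
    (∀ e ∈ H, e ⊆ Ico a b ∧ e.card = d) ∧
    (∀ c : ℕ → ℕ, (∀ x ∈ Ico a b, c x < χ) → ∃ e ∈ H, ∃ i, ∀ x ∈ e, c x = i) ∧
    (∀ t ≤ d, ∀ ν : ℕ → ℝ, (∀ x, 0 ≤ ν x) → ∃ A ⊆ Ico a b, (∀ e ∈ H, (A ∩ e).card ≤ t) ∧
      (t : ℝ) / (3 * d) * ∑ x ∈ Ico a b, ν x ≤ ∑ x ∈ A, ν x) := by
  classical
  obtain ⟨M, hM⟩ := exists_mono d χ hd
  let N := Fintype.card (Vx M d)
  let f : Vx M d ≃ Fin N := Fintype.equivFin _
  let g : Vx M d ↪ ℕ := ⟨fun v => a + (f v : ℕ), fun v w h => by
    apply f.injective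
    apply Fin.ext
    have : a + (f v : ℕ) = a + (f w : ℕ) := h
    omega⟩
  have hg : (univ : Finset (Vx M d)).map g = Ico a (a + N) := by
    ext n
    rw [mem_map, mem_Ico]
    constructor
    · rintro ⟨v, -, rfl⟩
      show a ≤ a + (f v : ℕ) ∧ a + (f v : ℕ) < a + N
      have := (f v).2
      omega
    · rintro ⟨h1, h2⟩
      refine ⟨f.symm ⟨n - a, by omega⟩, mem_univ _, ?_⟩
      show a + (f (f.symm ⟨n - a, by omega⟩) : ℕ) = n
      rw [Equiv.apply_symm_apply]
      show a + (n - a) = n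
      omega
  have hgm : ∀ v, g v ∈ Ico a (a + N) := fun v => hg ▸ mem_map_of_mem g (mem_univ v)
  have hNpos : 0 < N := by
    obtain ⟨E, hE, -⟩ := hM (fun _ => 0) (fun _ => by omega)
    have : E.Nonempty := card_pos.1 (by rw [hE.1]; omega)
    obtain ⟨v, -⟩ := this
    exact Fintype.card_pos_iff.2 ⟨v⟩
  refine ⟨a + N, by omega, {e | ∃ E : Finset (Vx M d), Edge E ∧ e = E.map g}, ?_, ?_, ?_⟩
  · rintro e ⟨E, hE, rfl⟩
    refine ⟨?_, by rw [card_map, hE.1]⟩
    rw [← hg]
    exact map_subset_map.2 (subset_univ _)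
  · intro c hc
    obtain ⟨E, hE, i, hi⟩ := hM (fun v => c (g v)) (fun v => hc _ (hgm v))
    refine ⟨E.map g, ⟨E, hE, rfl⟩, i, ?_⟩
    intro x hx
    rw [mem_map] at hx
    obtain ⟨v, hv, rfl⟩ := hx
    exact hi v hv
  · intro t ht ν hν
    obtain ⟨h, hh⟩ := exists_sparse hd t ht (fun v => ν (g v)) (fun v => hν _)
    refine ⟨(sparse t h).map g, ?_, ?_, ?_⟩
    · rw [← hg]
      exact map_subset_map.2 (subset_univ _)
    · rintro e ⟨E, hE, rfl⟩
      rw [← map_inter, card_map]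
      exact sparse_card t h E hE
    · rw [← hg, sum_map, sum_map]
      exact hh

end Pool.Agent.H629.NK
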