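import Mathlib

/-!
# Ideals on `ω`: the notions of problem MP_64e5f1_lc
-/

set_option autoImplicit false

namespace Pool.Agent.H629.NK

open Filter Topology
open scoped ENNReal

/-- `I` is an ideal on `ω`: a proper family of subsets of `ω` which contains all finite sets and
is closed under subsets and finite unions. -/
structure IsIdeal (I : Set (Set ℕ)) : Prop where
  finite_mem : ∀ A : Set ℕ, A.Finite → A ∈ I
  subset_mem : ∀ A ∈ I, ∀ B ⊆ A, B ∈ I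
  union_mem : ∀ A ∈ I, ∀ B ∈ I, A ∪ B ∈ I
  univ_notMem : Set.univ ∉ I

/-- The Boolean algebra `I ∪ I*`, where `I*` is the dual filter of `I`. -/
def alg (I : Set (Set ℕ)) : Set (Set ℕ) := {A | A ∈ I ∨ Aᶜ ∈ I}

/-- `μ` is finitely additive on the family `𝒜`. -/
def FinAdd (𝒜 : Set (Set ℕ)) (μ : Set ℕ → ℝ) : Prop :=
  ∀ A ∈ 𝒜, ∀ B ∈ 𝒜, Disjoint A B → μ (A ∪ B) = μ A + μ B

/-- The total variation of `μ` on the family `𝒜` is at most `C`. -/
def VarLE (𝒜 : Set (Set ℕ)) (μ : Set ℕ → ℝ) (C : ℝ) : Prop :=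
  ∀ P : Finset (Set ℕ), (∀ A ∈ P, A ∈ 𝒜) → (P : Set (Set ℕ)).PairwiseDisjoint id →
    ∑ A ∈ P, |μ A| ≤ C

/-- The Nikodym property of an algebra `𝒜` of subsets of `ω`: every sequence of bounded finitely
additive real measures on `𝒜` which converges to `0` at every member of `𝒜` is bounded in the
variation norm. -/
def Nikodym (𝒜 : Set (Set ℕ)) : Prop :=
  ∀ μ : ℕ → Set ℕ → ℝ, (∀ n, FinAdd 𝒜 (μ n) ∧ ∃ C, ∀ A ∈ 𝒜, |μ n A| ≤ C) →
    (∀ A ∈ 𝒜, Tendsto (fun n => μ n A) atTop (𝓝 0)) → ∃ C, ∀ n, VarLE 𝒜 (μ n) C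

/-- Lower semicontinuous submeasures on `ω`. -/
structure IsLscSubmeasure (φ : Set ℕ → ℝ≥0∞) : Prop where
  empty : φ ∅ = 0
  mono : ∀ A B, A ⊆ B → φ A ≤ φ B
  union_le : ∀ A B, φ (A ∪ B) ≤ φ A + φ B
  singleton_lt_top : ∀ n, φ {n} < ⊤
  lsc : ∀ A, Tendsto (fun n : ℕ => φ (A ∩ Set.Iio n)) atTop (𝓝 (φ A))

/-- `Exh(φ)`. -/
def Exh (φ : Set ℕ → ℝ≥0∞) : Set (Set ℕ) :=
  {A | Tendsto (fun n : ℕ => φ (A \ Set.Iio n)) atTop (𝓝 0)}

/-- Finitely additive measures on `P(ω)`. -/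
def IsFinAddMeasure (μ : Set ℕ → ℝ≥0∞) : Prop :=
  μ ∅ = 0 ∧ ∀ A B, Disjoint A B → μ (A ∪ B) = μ A + μ B

/-- `φ` is non-pathological: at every set it is the supremum of the values of the finitely
additive measures below `φ`. -/
def NonPathologicalSubmeasure (φ : Set ℕ → ℝ≥0∞) : Prop :=
  ∀ A, IsLUB {r | ∃ μ, IsFinAddMeasure μ ∧ (∀ B, μ B ≤ φ B) ∧ μ A = r} (φ A)

/-- `I` is non-pathological: `I = Exh(φ)` for some non-pathological lsc submeasure `φ`. -/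
def NonPathological (I : Set (Set ℕ)) : Prop :=
  ∃ φ, IsLscSubmeasure φ ∧ NonPathologicalSubmeasure φ ∧ I = Exh φ

/-- `I` is totally bounded: `ψ(ω) < ∞` for every lsc submeasure `ψ` with `I ⊆ Exh(ψ)`. -/
def TotallyBounded (I : Set (Set ℕ)) : Prop :=
  ∀ ψ, IsLscSubmeasure ψ → I ⊆ Exh ψ → ψ Set.univ < ⊤

/-- The Katětov order. -/
def KatetovLE (I J : Set (Set ℕ)) : Prop := ∃ f : ℕ → ℕ, ∀ A ∈ I, f ⁻¹' A ∈ J

/-- Suprema of submeasures which live on finite sets are lower semicontinuous. -/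
theorem isLsc_iSup {ι : Type} (g : ι → Set ℕ → ℝ≥0∞) (h0 : ∀ i, g i ∅ = 0)
    (hm : ∀ i A B, A ⊆ B → g i A ≤ g i B) (hu : ∀ i A B, g i (A ∪ B) ≤ g i A + g i B)
    (hf : ∀ i, ∃ m : ℕ, ∀ A, g i A ≤ g i (A ∩ Set.Iio m))
    (hs : ∀ n, ⨆ i, g i {n} < ⊤) : IsLscSubmeasure (fun A => ⨆ i, g i A) where
  empty := by simp [h0]
  mono := fun A B h => iSup_mono (fun i => hm i A B h)
  union_le := fun A B => iSup_le (fun i => (hu i A B).trans
    (add_le_add (le_iSup (fun i => g i A) i) (le_iSup (fun i => g i B) i)))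
  singleton_lt_top := hs
  lsc := by
    intro A
    have hmono : Monotone (fun n : ℕ => ⨆ i, g i (A ∩ Set.Iio n)) := by
      intro m n hmn
      refine iSup_mono (fun i => hm i _ _ ?_)
      exact Set.inter_subset_inter_right _ (Set.Iio_subset_Iio hmn)
    have h1 := tendsto_atTop_iSup hmono
    have h2 : ⨆ n : ℕ, ⨆ i, g i (A ∩ Set.Iio n) = ⨆ i, g i A := by
      apply le_antisymm
      · exact iSup_le (fun n => iSup_mono (fun i => hm i _ _ Set.inter_subset_left))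
      · apply iSup_le
        intro i
        obtain ⟨m, hm'⟩ := hf i
        exact (hm' A).trans ((le_iSup (fun i => g i (A ∩ Set.Iio m)) i).trans
          (le_iSup (fun n : ℕ => ⨆ i, g i (A ∩ Set.Iio n)) m))
    rwa [h2] at h1

end Pool.Agent.H629.NK
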