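import Pool.Agent.H629.NK.Sys

/-!
# The ideals are not totally bounded and Katětov incomparable

Helper file for problem MP_64e5f1_lc.
-/

set_option autoImplicit false

namespace Pool.Agent.H629.NK

open Finset Filter Topology
open scoped ENNReal

namespace Sys

variable (S : Sys)

/-- `A` can be coloured with `k` colours without monochromatic edge inside `A`. -/
def Col (n : ℕ) (A : Set ℕ) (k : ℕ) : Prop :=
  ∃ c : ℕ → ℕ, (∀ x ∈ A, x ∈ Ico (S.a n) (S.a (n + 1)) → c x < k) ∧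
    ∀ e ∈ S.H n, (∀ x ∈ e, x ∈ A) → ∃ x ∈ e, ∃ y ∈ e, c x ≠ c y

theorem col_ex (n : ℕ) (A : Set ℕ) : ∃ k, S.Col n A k := by
  refine ⟨S.a (n + 1), fun x => x, fun x _ hx => (mem_Ico.1 hx).2, fun e he _ => ?_⟩
  have h1 := (S.edge n e he).2
  have h2 := S.two_le n
  obtain ⟨x, hx, y, hy, hxy⟩ := one_lt_card.1 (show 1 < e.card by omega)
  exact ⟨x, hx, y, hy, hxy⟩

open Classical in
/-- The chromatic number of `A`. -/
noncomputable def cov (n : ℕ) (A : Set ℕ) : ℕ := Nat.find (S.col_ex n A)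

theorem cov_spec (n : ℕ) (A : Set ℕ) : S.Col n A (S.cov n A) := by
  classical
  exact Nat.find_spec (S.col_ex n A)

theorem cov_le {n : ℕ} {A : Set ℕ} {k : ℕ} (h : S.Col n A k) : S.cov n A ≤ k := by
  classical
  exact Nat.find_min' (S.col_ex n A) h

theorem cov_zero {n : ℕ} {A : Set ℕ} (h : ∀ x ∈ A, x ∉ Ico (S.a n) (S.a (n + 1))) :
    S.cov n A = 0 := by
  refine Nat.le_zero.1 (S.cov_le ⟨fun _ => 0, fun x hx hx' => absurd hx' (h x hx), ?_⟩)
  intro e he heA
  have h1 := (S.edge n e he).2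
  have h2 := S.two_le n
  obtain ⟨x, hx⟩ := card_pos.1 (show 0 < e.card by omega)
  exact absurd ((S.edge n e he).1 hx) (h x (heA x hx))

theorem cov_one {n : ℕ} {A : Set ℕ} (h : ∀ e ∈ S.H n, ¬ ∀ x ∈ e, x ∈ A) :
    S.cov n A ≤ 1 :=
  S.cov_le ⟨fun _ => 0, fun _ _ _ => Nat.one_pos, fun e he heA => absurd heA (h e he)⟩

theorem cov_mono {n : ℕ} {A B : Set ℕ} (h : ∀ x ∈ A, x ∈ Ico (S.a n) (S.a (n + 1)) → x ∈ B) :
    S.cov n A ≤ S.cov n B := by
  obtain ⟨c, h1, h2⟩ := S.cov_spec n B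
  refine S.cov_le ⟨c, fun x hx hx' => h1 x (h x hx hx') hx', fun e he heA => h2 e he ?_⟩
  intro x hx
  exact h x (heA x hx) ((S.edge n e he).1 hx)

theorem cov_union (n : ℕ) (A B : Set ℕ) : S.cov n (A ∪ B) ≤ S.cov n A + S.cov n B := by
  classical
  obtain ⟨c, h1, h2⟩ := S.cov_spec n A
  obtain ⟨c', h1', h2'⟩ := S.cov_spec n B
  refine S.cov_le ⟨fun x => if x ∈ A then c x else S.cov n A + c' x, ?_, ?_⟩
  · intro x hx hx'
    by_cases hA : x ∈ A
    · simp only [if_pos hA]
      have := h1 x hA hx'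
      omega
    · simp only [if_neg hA]
      have := h1' x (hx.resolve_left hA) hx'
      omega
  · intro e he heA
    by_contra hcon
    push Not at hcon
    by_cases hex : ∃ x ∈ e, x ∈ A
    · obtain ⟨x, hx, hxA⟩ := hex
      have hall : ∀ y ∈ e, y ∈ A := by
        intro y hy
        by_contra hyA
        have h3 := hcon x hx y hy
        rw [if_pos hxA, if_neg hyA] at h3
        have h4 := h1 x hxA ((S.edge n e he).1 hx)
        omega
      obtain ⟨u, hu, v, hv, huv⟩ := h2 e he hall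
      have h3 := hcon u hu v hv
      rw [if_pos (hall u hu), if_pos (hall v hv)] at h3
      exact huv h3
    · push Not at hex
      have hall : ∀ y ∈ e, y ∈ B := fun y hy => (heA y hy).resolve_left (hex y hy)
      obtain ⟨u, hu, v, hv, huv⟩ := h2' e he hall
      have h3 := hcon u hu v hv
      rw [if_neg (hex u hu), if_neg (hex v hv)] at h3
      omega

theorem cov_univ (n : ℕ) : (n + 1) ^ 2 ≤ S.cov n Set.univ := by
  by_contra hcon
  obtain ⟨c, h1, h2⟩ := S.cov_spec n Set.univ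
  obtain ⟨e, he, i, hi⟩ := S.chrom n c (fun x hx => by
    have := h1 x (Set.mem_univ x) hx
    omega)
  obtain ⟨u, hu, v, hv, huv⟩ := h2 e he (fun x _ => Set.mem_univ x)
  exact huv ((hi u hu).trans (hi v hv).symm)

/-- The unbounded submeasure. -/
noncomputable def psi (X : Set ℕ) (A : Set ℕ) : ℝ≥0∞ :=
  ⨆ n : X, ENNReal.ofReal ((S.cov n.1 A : ℝ) / (n.1 + 1))

theorem psi_lsc (X : Set ℕ) : IsLscSubmeasure (S.psi X) := by
  refine isLsc_iSup (fun (n : X) A => ENNReal.ofReal ((S.cov n.1 A : ℝ) / (n.1 + 1))) ?_ ?_ ?_ ?_ ?_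
  · intro n
    rw [S.cov_zero (fun x hx => absurd hx (Set.notMem_empty x))]
    simp
  · intro n A B h
    apply ENNReal.ofReal_le_ofReal
    apply div_le_div_of_nonneg_right _ (by positivity)
    have : S.cov n.1 A ≤ S.cov n.1 B := S.cov_mono (fun x hx _ => h hx)
    exact_mod_cast this
  · intro n A B
    rw [← ENNReal.ofReal_add (by positivity) (by positivity), ← add_div]
    apply ENNReal.ofReal_le_ofReal
    apply div_le_div_of_nonneg_right _ (by positivity)
    exact_mod_cast S.cov_union n.1 A B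
  · intro n
    refine ⟨S.a (n.1 + 1), fun A => ?_⟩
    apply ENNReal.ofReal_le_ofReal
    apply div_le_div_of_nonneg_right _ (by positivity)
    have : S.cov n.1 A ≤ S.cov n.1 (A ∩ Set.Iio (S.a (n.1 + 1))) :=
      S.cov_mono (fun x hx hx' => ⟨hx, (mem_Ico.1 hx').2⟩)
    exact_mod_cast this
  · intro k
    refine (iSup_le (fun n : X => ?_)).trans_lt ENNReal.one_lt_top
    rw [← ENNReal.ofReal_one]
    apply ENNReal.ofReal_le_ofReal
    rw [div_le_one (by positivity)]
    have h1 : S.cov n.1 {k} ≤ 1 := by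
      refine S.cov_one (fun e he h => ?_)
      have h1 := (S.edge n e he).2
      have h2 := S.two_le n
      obtain ⟨x, hx, y, hy, hxy⟩ := one_lt_card.1 (show 1 < e.card by omega)
      exact hxy ((h x hx : x = k).trans (h y hy : y = k).symm)
    have h2 : (S.cov n.1 {k} : ℝ) ≤ 1 := by exact_mod_cast h1
    have h3 : (0 : ℝ) ≤ (n.1 : ℝ) := Nat.cast_nonneg _
    linarith

theorem ideal_sub_exh_psi (X : Set ℕ) : S.ideal X ⊆ Exh (S.psi X) := by
  intro A hA
  show Tendsto (fun n : ℕ => S.psi X (A \ Set.Iio n)) atTop (𝓝 0)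
  rw [ENNReal.tendsto_atTop_zero]
  intro ε hε
  obtain ⟨δ, hδ, hδε⟩ : ∃ δ : ℝ, 0 < δ ∧ ENNReal.ofReal δ ≤ ε := by
    by_cases htop : ε = ⊤
    · exact ⟨1, one_pos, by simp [htop]⟩
    · exact ⟨ε.toReal, ENNReal.toReal_pos hε.ne' htop, ENNReal.ofReal_toReal_le⟩
  obtain ⟨n₀, hn₀⟩ := hA (1 / 2) (by positivity)
  obtain ⟨k, hk⟩ := exists_nat_gt (1 / δ)
  let N := max n₀ k
  refine ⟨S.a N, fun m hm => iSup_le (fun n => le_trans ?_ hδε)⟩
  apply ENNReal.ofReal_le_ofReal
  rw [div_le_iff₀ (by positivity)]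
  by_cases hn : n.1 < N
  · rw [S.cov_zero]
    · push_cast
      positivity
    · intro x hx hx'
      have h1 := (mem_Ico.1 hx').2
      have h2 : S.a (n.1 + 1) ≤ S.a N := S.strictMono.monotone hn
      exact hx.2 (show x < m by omega)
  · push Not at hn
    have h1 : S.cov n.1 (A \ Set.Iio m) ≤ 1 := by
      refine S.cov_one (fun e he h => ?_)
      have h2 := hn₀ n.1 ((le_max_left _ _).trans hn) n.2 e he
      rw [cnt_full e (fun x hx => (h x hx).1), (S.edge n.1 e he).2] at h2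
      have := S.d_pos n.1
      linarith
    have h2 : (S.cov n.1 (A \ Set.Iio m) : ℝ) ≤ 1 := by exact_mod_cast h1
    have h3 : (k : ℝ) ≤ n.1 := by exact_mod_cast (le_max_right n₀ k).trans hn
    have h4 : 1 / δ ≤ (n.1 : ℝ) + 1 := by linarith
    rw [div_le_iff₀ hδ] at h4
    linarith

theorem psi_univ {X : Set ℕ} (hX : X.Infinite) : S.psi X Set.univ = ⊤ := by
  rw [← top_le_iff]
  apply le_of_forall_lt
  intro c hc
  obtain ⟨k, hk⟩ := ENNReal.exists_nat_gt hc.ne
  obtain ⟨n, hn, hkn⟩ := hX.exists_gt k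
  refine lt_of_lt_of_le ?_ (le_iSup (fun n : X => ENNReal.ofReal ((S.cov n.1 Set.univ : ℝ) /
    (n.1 + 1))) ⟨n, hn⟩)
  have h1 : (n : ℝ) + 1 ≤ (S.cov n Set.univ : ℝ) / (n + 1) := by
    rw [le_div_iff₀ (by positivity)]
    have := S.cov_univ n
    have h2 : (((n + 1) ^ 2 : ℕ) : ℝ) ≤ S.cov n Set.univ := by exact_mod_cast this
    push_cast at h2
    nlinarith
  have h2 : (k : ℝ) < n := by exact_mod_cast hkn
  calc c < (k : ℝ≥0∞) := hk
    _ = ENNReal.ofReal (k : ℝ) := (ENNReal.ofReal_natCast k).symm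
    _ ≤ ENNReal.ofReal ((S.cov n Set.univ : ℝ) / (n + 1)) :=
        ENNReal.ofReal_le_ofReal (by linarith)

theorem not_totallyBounded {X : Set ℕ} (hX : X.Infinite) : ¬ TotallyBounded (S.ideal X) := by
  intro h
  have := h (S.psi X) (S.psi_lsc X) (S.ideal_sub_exh_psi X)
  rw [S.psi_univ hX] at this
  exact lt_irrefl _ this

/-- A set in the ideal cannot contain an edge of infinitely many of the hypergraphs. -/
theorem not_mem_of_edges {Y T : Set ℕ} (hT : T.Infinite) (hTY : T ⊆ Y) (e : ℕ → Finset ℕ)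
    (he : ∀ m ∈ T, e m ∈ S.H m) {B : Set ℕ} (hB : ∀ m ∈ T, ∀ x ∈ e m, x ∈ B) :
    B ∉ S.ideal Y := by
  intro hBY
  obtain ⟨n₀, hn₀⟩ := hBY (1 / 2) (by positivity)
  obtain ⟨m, hm, hmn⟩ := hT.exists_gt n₀
  have h1 := hn₀ m hmn.le (hTY hm) (e m) (he m hm)
  rw [cnt_full (e m) (hB m hm), (S.edge m _ (he m hm)).2] at h1
  have := S.d_pos m
  linarith

theorem not_katetov {X Y : Set ℕ} (hY : (Y \ X).Infinite) :
    ¬ KatetovLE (S.ideal X) (S.ideal Y) := by
  classical
  rintro ⟨f, hf⟩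
  -- monochromatic edges
  have hc : ∀ m, ∃ e ∈ S.H m, ∃ i, ∀ x ∈ e, (if S.blk (f x) ∉ X then 0 else
      if f x < S.a m then f x + 1 else S.a m + 1) = i := by
    intro m
    apply S.chrom m
    intro x _
    split_ifs <;> omega
  choose e he i hi using hc
  have hle : ∀ m, i m ≤ S.a m + 1 := by
    intro m
    obtain ⟨x, hx⟩ := card_pos.1 (show 0 < (e m).card by
      rw [(S.edge m _ (he m)).2]; have := S.two_le m; omega)
    rw [← hi m x hx]
    split_ifs <;> omega
  have hsplit : Y \ X = {m | m ∈ Y \ X ∧ i m = 0} ∪ ({m | m ∈ Y \ X ∧ 1 ≤ i m ∧ i m ≤ S.a m} ∪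
      {m | m ∈ Y \ X ∧ i m = S.a m + 1}) := by
    ext m
    simp only [Set.mem_union, Set.mem_ofPred_eq]
    constructor
    · intro hm
      have := hle m
      rcases Nat.eq_zero_or_pos (i m) with h | h
      · exact Or.inl ⟨hm, h⟩
      · rcases Nat.lt_or_ge (S.a m) (i m) with h' | h'
        · exact Or.inr (Or.inr ⟨hm, by omega⟩)
        · exact Or.inr (Or.inl ⟨hm, h, h'⟩)
    · rintro (⟨h, -⟩ | ⟨h, -⟩ | ⟨h, -⟩) <;> exact h
  rw [hsplit, Set.infinite_union, Set.infinite_union] at hY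
  rcases hY with hT | hT | hT
  · -- the preimage of the intervals with index outside `X`
    refine S.not_mem_of_edges hT (fun m hm => hm.1.1) e (fun m _ => he m)
      (B := f ⁻¹' {y | S.blk y ∉ X}) ?_ (hf _ ?_)
    · intro m hm x hx
      have h1 := hi m x hx
      rw [hm.2] at h1
      by_contra hcon
      have h2 : ¬ (S.blk (f x) ∉ X) := hcon
      rw [if_neg h2] at h1
      split_ifs at h1
    · refine S.mem_ideal_of_le (fun n hn e' he' => ?_)
      rw [cnt_zero]
      · exact Nat.zero_le _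
      · intro x hx hx'
        apply hx'
        rw [S.blk_edge he' hx]
        exact hn
  · -- constant on edges
    have hconst : ∀ m ∈ {m | m ∈ Y \ X ∧ 1 ≤ i m ∧ i m ≤ S.a m}, ∀ x ∈ e m, f x = i m - 1 := by
      intro m hm x hx
      obtain ⟨-, h2, h3⟩ := hm
      have h1 := hi m x hx
      split_ifs at h1 <;> omega
    obtain ⟨A, T', hA, hT', hT'i, hT'A⟩ : ∃ A T' : Set ℕ, A ∈ S.ideal X ∧
        T' ⊆ {m | m ∈ Y \ X ∧ 1 ≤ i m ∧ i m ≤ S.a m} ∧ T'.Infinite ∧ ∀ m ∈ T', i m - 1 ∈ A := by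
      by_cases hfin : ((fun m => i m - 1) '' {m | m ∈ Y \ X ∧ 1 ≤ i m ∧ i m ≤ S.a m}).Finite
      · refine ⟨(fun m => i m - 1) '' {m | m ∈ Y \ X ∧ 1 ≤ i m ∧ i m ≤ S.a m},
          {m | m ∈ Y \ X ∧ 1 ≤ i m ∧ i m ≤ S.a m}, ?_, subset_rfl, hT,
          fun m hm => Set.mem_image_of_mem (fun m => i m - 1) hm⟩
        intro ε hε
        obtain ⟨b, hb⟩ := hfin.bddAbove
        refine ⟨b + 1, fun n hn _ e' he' => ?_⟩
        rw [cnt_zero]
        · have := S.d_pos n
          push_cast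
          positivity
        · intro x hx hxA
          have h1 := hb hxA
          have h2 := (S.edge_mem he' hx).1
          have h3 := S.le_a n
          omega
      · obtain ⟨A, hA1, hA2, hA3⟩ := S.tall X (R := (fun m => i m - 1) ''
          {m | m ∈ Y \ X ∧ 1 ≤ i m ∧ i m ≤ S.a m}) hfin
        refine ⟨A, {m | (m ∈ Y \ X ∧ 1 ≤ i m ∧ i m ≤ S.a m) ∧ i m - 1 ∈ A}, hA3,
          fun m hm => hm.1, ?_, fun m hm => hm.2⟩
        intro hfin'
        apply hA2
        refine (hfin'.image (fun m => i m - 1)).subset ?_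
        intro y hy
        obtain ⟨m, hm, rfl⟩ := hA1 hy
        exact ⟨m, ⟨hm, hy⟩, rfl⟩
    refine S.not_mem_of_edges hT'i (fun m hm => (hT' hm).1.1) e (fun m _ => he m)
      (B := f ⁻¹' A) ?_ (hf _ hA)
    intro m hm x hx
    show f x ∈ A
    rw [hconst m (hT' hm) x hx]
    exact hT'A m hm
  · -- edges mapped far away
    have hfar : ∀ m ∈ {m | m ∈ Y \ X ∧ i m = S.a m + 1}, ∀ x ∈ e m, S.a (m + 1) ≤ f x := by
      intro m hm x hx
      obtain ⟨hm1, hm2⟩ := hm
      have h1 := hi m x hx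
      rw [hm2] at h1
      by_cases hb : S.blk (f x) ∉ X
      · rw [if_pos hb] at h1
        omega
      · rw [if_neg hb] at h1
        push Not at hb
        by_cases hlt : f x < S.a m
        · rw [if_pos hlt] at h1
          omega
        · by_contra hcon
          push Not at hcon hlt
          rw [S.blk_unique hlt hcon] at hb
          exact hm1.2 hb
    refine S.not_mem_of_edges hT (fun m hm => hm.1.1) e (fun m _ => he m)
      (B := f ⁻¹' {y | ∃ m ∈ {m | m ∈ Y \ X ∧ i m = S.a m + 1}, ∃ x ∈ e m, f x = y}) ?_ (hf _ ?_)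
    · intro m hm x hx
      exact ⟨m, hm, x, hx, rfl⟩
    · refine S.mem_ideal_of_le (fun n hn e' he' => ?_)
      have h1 : cnt e' {y | ∃ m ∈ {m | m ∈ Y \ X ∧ i m = S.a m + 1}, ∃ x ∈ e m, f x = y} ≤
          ((range (S.a n)).image f).card := by
        refine cnt_finset e' _ ?_
        rintro y hy ⟨m, hm, x, hx, rfl⟩
        have h2 := hfar m hm x hx
        have h3 := (S.edge_mem he' hy).2
        have h4 : S.a (m + 1) < S.a (n + 1) := h2.trans_lt h3
        rw [S.strictMono.lt_iff_lt] at h4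
        have h5 := (S.edge_mem (he m) hx).2
        have h6 : S.a (m + 1) ≤ S.a n := S.strictMono.monotone (by omega)
        exact mem_image_of_mem f (mem_range.2 (by omega))
      have h2 := h1.trans card_image_le
      rw [card_range] at h2
      omega

end Sys

end Pool.Agent.H629.NK
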