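import Pool.Agent.H629.NK.Sys
import Pool.Graph.R_seed8.H827R3.NikA

/-!
# The ideals have the Nikodym property

Helper file for problem MP_64e5f1_lc.
-/

set_option autoImplicit false

namespace Pool.Agent.H629.NK

open Finset Filter Topology

theorem IsIdeal.empty_mem {I : Set (Set ℕ)} (hI : IsIdeal I) : ∅ ∈ I :=
  hI.finite_mem _ Set.finite_empty

theorem IsIdeal.alg_union {I : Set (Set ℕ)} (hI : IsIdeal I) {A B : Set ℕ} (hA : A ∈ alg I)
    (hB : B ∈ alg I) : A ∪ B ∈ alg I := by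
  rcases hA with hA | hA
  · rcases hB with hB | hB
    · exact Or.inl (hI.union_mem A hA B hB)
    · exact Or.inr (hI.subset_mem _ hB _ (Set.compl_subset_compl.2 Set.subset_union_right))
  · exact Or.inr (hI.subset_mem _ hA _ (Set.compl_subset_compl.2 Set.subset_union_left))

theorem IsIdeal.univ_alg {I : Set (Set ℕ)} (hI : IsIdeal I) : Set.univ ∈ alg I := by
  right
  rw [Set.compl_univ]
  exact hI.empty_mem

theorem FinAdd.empty {I : Set (Set ℕ)} (hI : IsIdeal I) {μ : Set ℕ → ℝ}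
    (h : FinAdd (alg I) μ) : μ ∅ = 0 := by
  have := h ∅ (Or.inl hI.empty_mem) ∅ (Or.inl hI.empty_mem) (by simp)
  simp at this
  exact this

theorem FinAdd.finset {I : Set (Set ℕ)} (hI : IsIdeal I) {μ : Set ℕ → ℝ}
    (h : FinAdd (alg I) μ) (P : Finset (Set ℕ))
    (hP : ∀ A ∈ P, A ∈ alg I) (hd : (P : Set (Set ℕ)).PairwiseDisjoint id) :
    (⋃ A ∈ P, A) ∈ alg I ∧ μ (⋃ A ∈ P, A) = ∑ A ∈ P, μ A := by
  classical
  induction P using Finset.induction_on with
  | empty => simpa using ⟨Or.inl hI.empty_mem, h.empty hI⟩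
  | insert B P hB ih =>
    have h1 := ih (fun A hA => hP A (Finset.mem_insert_of_mem hA))
      (hd.subset (by intro x hx; exact Finset.mem_insert_of_mem hx))
    rw [Finset.set_biUnion_insert, Finset.sum_insert hB]
    refine ⟨hI.alg_union (hP B (Finset.mem_insert_self _ _)) h1.1, ?_⟩
    rw [h B (hP B (Finset.mem_insert_self _ _)) _ h1.1, h1.2]
    rw [Set.disjoint_iUnion₂_right]
    intro A hA
    have hne : B ≠ A := by rintro rfl; exact hB hA
    exact hd (Finset.mem_coe.2 (Finset.mem_insert_self _ _))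
      (Finset.mem_coe.2 (Finset.mem_insert_of_mem hA)) hne

theorem FinAdd.points {I : Set (Set ℕ)} (hI : IsIdeal I) {μ : Set ℕ → ℝ}
    (h : FinAdd (alg I) μ) (F : Finset ℕ) : μ (F : Set ℕ) = ∑ x ∈ F, μ {x} := by
  classical
  induction F using Finset.induction_on with
  | empty => simpa using h.empty hI
  | insert a F ha ih =>
    rw [Finset.sum_insert ha, ← ih, Finset.coe_insert, Set.insert_eq, h]
    · exact Or.inl (hI.finite_mem _ (Set.finite_singleton a))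
    · exact Or.inl (hI.finite_mem _ F.finite_toSet)
    · rw [Set.disjoint_singleton_left]
      exact ha

theorem varLE_of_bound {I : Set (Set ℕ)} (hI : IsIdeal I) {μ : Set ℕ → ℝ}
    (h : FinAdd (alg I) μ) {K : ℝ}
    (hK : ∀ A ∈ alg I, |μ A| ≤ K) : VarLE (alg I) μ (K + K) := by
  classical
  intro P hP hd
  rw [← Finset.sum_filter_add_sum_filter_not P (fun A => 0 ≤ μ A)]
  apply add_le_add
  · have h1 := h.finset hI (P.filter (fun A => 0 ≤ μ A))
      (fun A hA => hP A (Finset.mem_filter.1 hA).1)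
      (hd.subset (by intro x hx; exact (Finset.mem_filter.1 hx).1))
    have h2 : ∑ A ∈ P.filter (fun A => 0 ≤ μ A), |μ A| = ∑ A ∈ P.filter (fun A => 0 ≤ μ A), μ A :=
      Finset.sum_congr rfl (fun A hA => abs_of_nonneg (Finset.mem_filter.1 hA).2)
    rw [h2, ← h1.2]
    exact (le_abs_self _).trans (hK _ h1.1)
  · have h1 := h.finset hI (P.filter (fun A => ¬ 0 ≤ μ A))
      (fun A hA => hP A (Finset.mem_filter.1 hA).1)
      (hd.subset (by intro x hx; exact (Finset.mem_filter.1 hx).1))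
    have h2 : ∑ A ∈ P.filter (fun A => ¬ 0 ≤ μ A), |μ A| =
        -∑ A ∈ P.filter (fun A => ¬ 0 ≤ μ A), μ A := by
      rw [← Finset.sum_neg_distrib]
      exact Finset.sum_congr rfl
        (fun A hA => abs_of_neg (not_le.1 (Finset.mem_filter.1 hA).2))
    rw [h2, ← h1.2]
    exact (neg_le_abs _).trans (hK _ h1.1)

/-- The Nikodym-Grothendieck theorem below a set of the ideal. -/
theorem below {I : Set (Set ℕ)} (hI : IsIdeal I) {μ : ℕ → Set ℕ → ℝ}
    (h : ∀ n, FinAdd (alg I) (μ n) ∧ ∃ C, ∀ A ∈ alg I, |μ n A| ≤ C)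
    (hb : ∀ A ∈ alg I, ∃ C, ∀ n, |μ n A| ≤ C) (B : Set ℕ) (hB : B ∈ I) :
    ∃ K : ℝ, ∀ n, ∀ A ⊆ B, |μ n A| ≤ K := by
  have hJ : ∀ S : Set B, ((↑) '' S : Set ℕ) ∈ I := fun S =>
    hI.subset_mem _ hB _ (by rintro _ ⟨x, _, rfl⟩; exact x.2)
  obtain ⟨K, hK⟩ := Pool.Agent.H827R3.nik_set B (fun n S => μ n ((↑) '' S)) (by
    intro n
    constructor
    · intro S T hST
      show μ n ((↑) '' (S ∪ T)) = _
      rw [Set.image_union]
      exact (h n).1 _ (Or.inl (hJ S)) _ (Or.inl (hJ T))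
        ((Set.disjoint_image_iff Subtype.val_injective).2 hST)
    · obtain ⟨C, hC⟩ := (h n).2
      exact ⟨C, fun S => hC _ (Or.inl (hJ S))⟩) (by
    intro S
    obtain ⟨C, hC⟩ := hb _ (Or.inl (hJ S))
    exact ⟨C, hC⟩)
  refine ⟨K, fun n A hA => ?_⟩
  have h1 : |μ n ((↑) '' ((↑) ⁻¹' A : Set B))| ≤ K := hK n ((↑) ⁻¹' A)
  rwa [Subtype.image_preimage_coe, Set.inter_eq_right.2 hA] at h1

theorem nikodym_of_key {I : Set (Set ℕ)} (hI : IsIdeal I)
    (key : ∀ μ : ℕ → Set ℕ → ℝ, (∀ n, FinAdd (alg I) (μ n) ∧ ∃ C, ∀ A ∈ alg I, |μ n A| ≤ C) →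
      (∀ A ∈ alg I, ∃ C, ∀ n, |μ n A| ≤ C) → ∃ K : ℝ, ∀ n, ∀ A ∈ I, |μ n A| ≤ K) :
    Nikodym (alg I) := by
  intro μ h h0
  have hb : ∀ A ∈ alg I, ∃ C, ∀ n, |μ n A| ≤ C := by
    intro A hA
    obtain ⟨C, hC⟩ := (h0 A hA).abs.bddAbove_range
    exact ⟨C, fun n => hC ⟨n, rfl⟩⟩
  obtain ⟨K, hK⟩ := key μ h hb
  obtain ⟨C, hC⟩ := hb _ hI.univ_alg
  have h2 : ∀ n, ∀ A ∈ alg I, |μ n A| ≤ |C| + K := by
    intro n A hA
    rcases hA with hA' | hA'
    · exact (hK n A hA').trans (by have := abs_nonneg C; linarith)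
    · have h3 : μ n Set.univ = μ n A + μ n Aᶜ := by
        rw [← (h n).1 A (Or.inr hA') _ (Or.inl hA') disjoint_compl_right, Set.union_compl_self]
      have h4 : μ n A = μ n Set.univ - μ n Aᶜ := by linarith
      rw [h4]
      refine (abs_sub _ _).trans (add_le_add ((hC n).trans (le_abs_self C)) (hK n _ hA'))
  exact ⟨_, fun n => varLE_of_bound hI (h n).1 (h2 n)⟩

namespace Sys

variable (S : Sys)

theorem sum_blocks (f : ℕ → ℝ) (m N : ℕ) (h : m ≤ N) :
    ∑ k ∈ Ico m N, ∑ x ∈ Ico (S.a k) (S.a (k + 1)), f x = ∑ x ∈ Ico (S.a m) (S.a N), f x := by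
  induction N, h using Nat.le_induction with
  | base => simp
  | succ N hN ih =>
    rw [Finset.sum_Ico_succ_top hN, ih, Finset.sum_Ico_consecutive _
      (S.strictMono.monotone hN) (S.step N).le]

theorem floor_half {x : ℝ} (hx : 1 ≤ x) : x / 2 ≤ (⌊x⌋₊ : ℝ) := by
  have h1 := Nat.lt_floor_add_one x
  have h2 : 1 ≤ ⌊x⌋₊ := Nat.le_floor (by simpa using hx)
  have h3 : (1 : ℝ) ≤ ⌊x⌋₊ := by exact_mod_cast h2
  linarith

theorem thin {X : Set ℕ} (hX : X.Infinite) {μ : Set ℕ → ℝ} (hμ : FinAdd (alg (S.ideal X)) μ)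
    (j n₀ : ℕ) (hn₀ : 2 ^ j ≤ n₀) {A : Set ℕ} (hA : A ∈ S.ideal X) (hA0 : ∀ x ∈ A, S.a n₀ ≤ x)
    (hbig : (j : ℝ) + 6 * 2 ^ j * j < |μ A|) :
    ∃ B ⊆ A, B ∈ S.ideal X ∧ (∀ m ∈ X, ∀ e ∈ S.H m, (cnt e B : ℝ) ≤ (1 / 2) ^ j * S.d m) ∧
      (j : ℝ) < |μ B| := by
  classical
  have hI := S.isIdeal hX
  obtain ⟨n₁, hn₁⟩ := hA ((1 / 2) ^ j) (by positivity)
  let N := max n₀ n₁
  have hnN : n₀ ≤ N := le_max_left _ _
  let A1 := A \ Set.Iio (S.a N)
  let A2 := A ∩ Set.Iio (S.a N)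
  have hA1 : A1 ∈ S.ideal X := hI.subset_mem _ hA _ Set.sdiff_subset
  have hA2 : A2 ∈ S.ideal X := hI.subset_mem _ hA _ Set.inter_subset_left
  by_cases hc : (j : ℝ) < |μ A1|
  · refine ⟨A1, Set.sdiff_subset, hA1, fun m hm e he => ?_, hc⟩
    by_cases hmN : m < N
    · rw [cnt_zero]
      · have := S.d_pos m
        push_cast
        positivity
      · intro x hx hxA
        have h1 := (S.edge_mem he hx).2
        have h2 : S.a (m + 1) ≤ S.a N := S.strictMono.monotone hmN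
        exact hxA.2 (show x < S.a N by omega)
    · refine le_trans ?_ (hn₁ m ((le_max_right _ _).trans (not_lt.1 hmN)) hm e he)
      have : cnt e A1 ≤ cnt e A := cnt_mono e (fun x _ hx => hx.1)
      exact_mod_cast this
  · have hsum : μ A = μ A2 + μ A1 := by
      rw [← hμ A2 (Or.inl hA2) A1 (Or.inl hA1) (Set.disjoint_sdiff_inter.symm),
        Set.inter_union_sdiff]
    have h6 : 6 * 2 ^ j * (j : ℝ) < |μ A2| := by
      have h1 := abs_add_le (μ A2) (μ A1)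
      rw [← hsum] at h1
      linarith
    let F : Finset ℕ := cset (Ico (S.a n₀) (S.a N)) A
    have hF : A2 = (F : Set ℕ) := by
      ext x
      rw [Finset.mem_coe, mem_cset, mem_Ico]
      constructor
      · rintro ⟨h1, h2⟩
        exact ⟨⟨hA0 x h1, h2⟩, h1⟩
      · rintro ⟨h1, h2⟩
        exact ⟨h2, h1.2⟩
    obtain ⟨σ, hσ1, hσ2⟩ : ∃ σ : ℝ, |σ| = 1 ∧ |μ A2| = σ * μ A2 := by
      rcases le_or_gt 0 (μ A2) with h | h
      · exact ⟨1, by simp, by rw [abs_of_nonneg h, one_mul]⟩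
      · exact ⟨-1, by simp, by rw [abs_of_neg h]; ring⟩
    let ν : ℕ → ℝ := fun x => if x ∈ F ∧ 0 < σ * μ {x} then σ * μ {x} else 0
    have hν : ∀ x, 0 ≤ ν x := by
      intro x
      by_cases h : x ∈ F ∧ 0 < σ * μ {x}
      · simp only [ν, if_pos h]
        exact h.2.le
      · simp only [ν, if_neg h]
        exact le_rfl
    let t : ℕ → ℕ := fun m => ⌊(1 / 2 : ℝ) ^ j * S.d m⌋₊
    have htd : ∀ m, t m ≤ S.d m := by
      intro m
      have h1 : (1 / 2 : ℝ) ^ j * S.d m ≤ S.d m := by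
        have h2 : (1 / 2 : ℝ) ^ j ≤ 1 := pow_le_one₀ (by norm_num) (by norm_num)
        have := S.d_pos m
        nlinarith
      exact Nat.floor_le_of_le h1
    choose Am hAm1 hAm2 hAm3 using fun m => S.sparse m (t m) (htd m) ν hν
    let U : Finset ℕ := (Ico n₀ N).biUnion Am
    let B : Finset ℕ := U.filter (fun x => x ∈ F ∧ 0 < σ * μ {x})
    have hBA2 : ∀ x ∈ B, x ∈ A2 := by
      intro x hx
      rw [hF]
      exact (mem_filter.1 hx).2.1
    refine ⟨(B : Set ℕ), fun x hx => (hBA2 x hx).1, hI.finite_mem _ B.finite_toSet, ?_, ?_⟩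
    · intro m hm e he
      have h1 : cnt e (B : Set ℕ) ≤ t m := by
        by_cases hmm : m ∈ Ico n₀ N
        · refine le_trans (cnt_finset e (Am m ∩ e) ?_) (hAm2 m e he)
          intro x hx hxB
          rw [Finset.mem_coe] at hxB
          obtain ⟨k, hk, hxk⟩ := mem_biUnion.1 (mem_filter.1 hxB).1
          have h2 := mem_Ico.1 (hAm1 k hxk)
          have h3 := S.blk_unique h2.1 h2.2
          rw [S.blk_edge he hx] at h3
          subst h3
          exact mem_inter.2 ⟨hxk, hx⟩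
        · rw [cnt_zero]
          · exact Nat.zero_le _
          · intro x hx hxB
            rw [Finset.mem_coe] at hxB
            obtain ⟨k, hk, hxk⟩ := mem_biUnion.1 (mem_filter.1 hxB).1
            have h2 := mem_Ico.1 (hAm1 k hxk)
            have h3 := S.blk_unique h2.1 h2.2
            rw [S.blk_edge he hx] at h3
            subst h3
            exact hmm hk
      have h2 : (cnt e (B : Set ℕ) : ℝ) ≤ t m := by exact_mod_cast h1
      refine h2.trans (Nat.floor_le ?_)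
      have := S.d_pos m
      positivity
    · have e1 : σ * μ (B : Set ℕ) = ∑ x ∈ U, ν x := by
        rw [hμ.points hI, Finset.mul_sum, Finset.sum_filter]
      have e2 : ∑ x ∈ U, ν x = ∑ m ∈ Ico n₀ N, ∑ x ∈ Am m, ν x := by
        apply Finset.sum_biUnion
        intro m _ k _ hmk
        rw [Function.onFun, Finset.disjoint_left]
        intro x hx hx'
        have h2 := mem_Ico.1 (hAm1 m hx)
        have h3 := mem_Ico.1 (hAm1 k hx')
        exact hmk ((S.blk_unique h2.1 h2.2).symm.trans (S.blk_unique h3.1 h3.2))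
      have e3 : ∀ m ∈ Ico n₀ N, (1 / 2 : ℝ) ^ j / 6 * ∑ x ∈ Ico (S.a m) (S.a (m + 1)), ν x ≤
          ∑ x ∈ Am m, ν x := by
        intro m hm
        refine le_trans ?_ (hAm3 m)
        apply mul_le_mul_of_nonneg_right _ (Finset.sum_nonneg (fun x _ => hν x))
        have hd := S.d_pos m
        have h1 : 2 ^ j ≤ m := hn₀.trans (mem_Ico.1 hm).1
        have h2 : m ≤ S.d m := by
          have h3 := S.small m
          have h4 := S.le_a m
          have h5 : 1 ≤ m := Nat.one_le_two_pow.trans h1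
          nlinarith
        have h3 : (1 : ℝ) ≤ (1 / 2 : ℝ) ^ j * S.d m := by
          have h4 : (2 : ℝ) ^ j ≤ S.d m := by exact_mod_cast h1.trans h2
          rw [one_div, inv_pow, ← div_eq_inv_mul, one_le_div (by positivity)]
          exact h4
        have h4 := floor_half h3
        rw [le_div_iff₀ (by positivity)]
        have h5 : (1 / 2 : ℝ) ^ j / 6 * (3 * S.d m) = (1 / 2 : ℝ) ^ j * S.d m / 2 := by ring
        rw [h5]
        exact h4
      have e4 : (1 / 2 : ℝ) ^ j / 6 * ∑ x ∈ Ico (S.a n₀) (S.a N), ν x ≤ ∑ x ∈ U, ν x := by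
        rw [e2, ← S.sum_blocks ν n₀ N hnN, Finset.mul_sum]
        exact Finset.sum_le_sum e3
      have e5 : |μ A2| ≤ ∑ x ∈ Ico (S.a n₀) (S.a N), ν x := by
        have h1 : ∑ x ∈ F, ν x ≤ ∑ x ∈ Ico (S.a n₀) (S.a N), ν x :=
          Finset.sum_le_sum_of_subset_of_nonneg (fun x hx => (mem_cset.1 hx).1)
            (fun x _ _ => hν x)
        refine le_trans ?_ h1
        rw [hσ2, hF, hμ.points hI, Finset.mul_sum]
        apply Finset.sum_le_sum
        intro x hx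
        by_cases h : x ∈ F ∧ 0 < σ * μ {x}
        · simp only [ν, if_pos h]
          exact le_rfl
        · simp only [ν, if_neg h]
          exact not_lt.1 (fun h' => h ⟨hx, h'⟩)
      have e6 : (j : ℝ) < σ * μ (B : Set ℕ) := by
        rw [e1]
        refine lt_of_lt_of_le ?_ e4
        have h1 : 6 * 2 ^ j * (j : ℝ) < ∑ x ∈ Ico (S.a n₀) (S.a N), ν x := h6.trans_le e5
        have h2 : (1 / 2 : ℝ) ^ j / 6 * (6 * 2 ^ j * (j : ℝ)) = j := by
          rw [one_div, inv_pow]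
          field_simp
        calc (j : ℝ) = (1 / 2 : ℝ) ^ j / 6 * (6 * 2 ^ j * (j : ℝ)) := h2.symm
          _ < _ := mul_lt_mul_of_pos_left h1 (by positivity)
      refine e6.trans_le ?_
      calc σ * μ (B : Set ℕ) ≤ |σ * μ (B : Set ℕ)| := le_abs_self _
        _ = |μ (B : Set ℕ)| := by rw [abs_mul, hσ1, one_mul]

theorem iUnion_mem {X : Set ℕ} (hX : X.Infinite) (B : ℕ → Set ℕ) (hB : ∀ j, B j ∈ S.ideal X)
    (hs : ∀ j, ∀ m ∈ X, ∀ e ∈ S.H m, (cnt e (B j) : ℝ) ≤ (1 / 2) ^ j * S.d m) (J : Set ℕ) :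
    (⋃ j ∈ J, B j) ∈ S.ideal X := by
  classical
  have hI := S.isIdeal hX
  intro ε hε
  obtain ⟨r, hr⟩ := exists_pow_lt_of_lt_one (show (0 : ℝ) < ε / 4 by positivity)
    (show (1 / 2 : ℝ) < 1 by norm_num)
  have hfin : (⋃ j ∈ range r, B j) ∈ S.ideal X := by
    have : ∀ r : ℕ, (⋃ j ∈ range r, B j) ∈ S.ideal X := by
      intro r
      induction r with
      | zero => simpa using hI.empty_mem
      | succ r ih =>
        rw [Finset.range_add_one, Finset.set_biUnion_insert]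
        exact hI.union_mem _ (hB r) _ ih
    exact this r
  obtain ⟨n₀, hn₀⟩ := hfin (ε / 2) (by positivity)
  refine ⟨n₀, fun n hn hnX e he => ?_⟩
  have h1 := hn₀ n hn hnX e he
  have hd := S.d_pos n
  -- the tail
  have h2 : (cnt e (⋃ j ∈ J, ⋃ (_ : r ≤ j), B j) : ℝ) ≤ ε / 2 * S.d n := by
    have hR : ∃ R : ℕ, ∀ x ∈ e, x ∈ (⋃ j ∈ J, ⋃ (_ : r ≤ j), B j) →
        ∃ j, r ≤ j ∧ j < R ∧ x ∈ B j := by
      have : ∀ x, ∃ R : ℕ, x ∈ (⋃ j ∈ J, ⋃ (_ : r ≤ j), B j) → ∃ j, r ≤ j ∧ j < R ∧ x ∈ B j := by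
        intro x
        by_cases hx : x ∈ (⋃ j ∈ J, ⋃ (_ : r ≤ j), B j)
        · have hx' := hx
          simp only [Set.mem_iUnion, exists_prop] at hx'
          obtain ⟨j, hj, hrj, hxj⟩ := hx'
          exact ⟨j + 1, fun _ => ⟨j, hrj, Nat.lt_succ_self j, hxj⟩⟩
        · exact ⟨0, fun h => absurd h hx⟩
      choose R hR using this
      refine ⟨e.sup R, fun x hx hx' => ?_⟩
      obtain ⟨j, h1, h2, h3⟩ := hR x hx'
      exact ⟨j, h1, h2.trans_le (Finset.le_sup hx), h3⟩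
    obtain ⟨R, hR⟩ := hR
    have h3 : cnt e (⋃ j ∈ J, ⋃ (_ : r ≤ j), B j) ≤ ∑ j ∈ Ico r R, cnt e (B j) := by
      refine le_trans (cnt_finset e ((Ico r R).biUnion (fun j => cset e (B j))) ?_)
        card_biUnion_le
      intro x hx hx'
      obtain ⟨j, h1, h2, h3⟩ := hR x hx hx'
      exact mem_biUnion.2 ⟨j, mem_Ico.2 ⟨h1, h2⟩, mem_cset.2 ⟨hx, h3⟩⟩
    have h4 : (cnt e (⋃ j ∈ J, ⋃ (_ : r ≤ j), B j) : ℝ) ≤ ∑ j ∈ Ico r R, (cnt e (B j) : ℝ) := by
      exact_mod_cast h3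
    refine h4.trans ?_
    calc ∑ j ∈ Ico r R, (cnt e (B j) : ℝ) ≤ ∑ j ∈ Ico r R, (1 / 2 : ℝ) ^ j * S.d n :=
          Finset.sum_le_sum (fun j _ => hs j n hnX e he)
      _ = (∑ j ∈ Ico r R, (1 / 2 : ℝ) ^ j) * S.d n := by rw [Finset.sum_mul]
      _ ≤ ((1 / 2) ^ r / (1 - 1 / 2)) * S.d n :=
          mul_le_mul_of_nonneg_right (geom_sum_Ico_le_of_lt_one (by norm_num) (by norm_num)) hd.le
      _ ≤ ε / 2 * S.d n := by
          apply mul_le_mul_of_nonneg_right _ hd.le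
          rw [div_le_iff₀ (by norm_num)]
          linarith
  have h3 : cnt e (⋃ j ∈ J, B j) ≤ cnt e (⋃ j ∈ range r, B j) +
      cnt e (⋃ j ∈ J, ⋃ (_ : r ≤ j), B j) := by
    refine le_trans (cnt_mono e ?_) (cnt_union _ _ _)
    intro x _ hx
    simp only [Set.mem_iUnion, exists_prop] at hx
    obtain ⟨j, hj, hxj⟩ := hx
    rcases Nat.lt_or_ge j r with h | h
    · left
      simp only [Set.mem_iUnion, exists_prop]
      exact ⟨j, mem_range.2 h, hxj⟩
    · right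
      simp only [Set.mem_iUnion, exists_prop]
      exact ⟨j, hj, h, hxj⟩
  have h4 : (cnt e (⋃ j ∈ J, B j) : ℝ) ≤ cnt e (⋃ j ∈ range r, B j) +
      cnt e (⋃ j ∈ J, ⋃ (_ : r ≤ j), B j) := by exact_mod_cast h3
  linarith

theorem key {X : Set ℕ} (hX : X.Infinite) (μ : ℕ → Set ℕ → ℝ)
    (h : ∀ n, FinAdd (alg (S.ideal X)) (μ n) ∧ ∃ C, ∀ A ∈ alg (S.ideal X), |μ n A| ≤ C)
    (hb : ∀ A ∈ alg (S.ideal X), ∃ C, ∀ n, |μ n A| ≤ C) :
    ∃ K : ℝ, ∀ n, ∀ A ∈ S.ideal X, |μ n A| ≤ K := by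
  classical
  have hI := S.isIdeal hX
  by_contra hcon
  push Not at hcon
  have step1 : ∀ C ∈ S.ideal X, ∀ K : ℝ, ∃ n, ∃ A ∈ S.ideal X, (∀ x ∈ A, x ∉ C) ∧
      K < |μ n A| := by
    intro C hC K
    obtain ⟨K', hK'⟩ := below hI h hb C hC
    obtain ⟨n, A, hA, hn⟩ := hcon (K + K')
    have h1 : A ∩ C ∈ S.ideal X := hI.subset_mem _ hA _ Set.inter_subset_left
    have h2 : A \ C ∈ S.ideal X := hI.subset_mem _ hA _ Set.sdiff_subset
    refine ⟨n, A \ C, h2, fun x hx => hx.2, ?_⟩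
    have h3 : μ n A = μ n (A ∩ C) + μ n (A \ C) := by
      rw [← (h n).1 _ (Or.inl h1) _ (Or.inl h2) Set.disjoint_sdiff_inter.symm,
        Set.inter_union_sdiff]
    have h4 := hK' n (A ∩ C) Set.inter_subset_right
    have h5 := abs_add_le (μ n (A ∩ C)) (μ n (A \ C))
    rw [← h3] at h5
    linarith
  have step2 : ∀ (j : ℕ) (C : {C : Set ℕ // C ∈ S.ideal X}), ∃ (n : ℕ) (B : Set ℕ),
      B ∈ S.ideal X ∧ (∀ x ∈ B, x ∉ C.1) ∧
      (∀ m ∈ X, ∀ e ∈ S.H m, (cnt e B : ℝ) ≤ (1 / 2) ^ j * S.d m) ∧ (j : ℝ) < |μ n B| := by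
    rintro j ⟨C, hC⟩
    obtain ⟨n, A, hA, hAC, hn⟩ := step1 (C ∪ Set.Iio (S.a (2 ^ j)))
      (hI.union_mem _ hC _ (hI.finite_mem _ (Set.finite_Iio _))) (j + 6 * 2 ^ j * j)
    obtain ⟨B, hBA, hB1, hB2, hB3⟩ := S.thin hX (h n).1 j (2 ^ j) le_rfl hA
      (fun x hx => not_lt.1 (fun h' => hAC x hx (Or.inr h'))) hn
    exact ⟨n, B, hB1, fun x hx h' => hAC x (hBA hx) (Or.inl h'), hB2, hB3⟩
  choose nn BB hBB1 hBB2 hBB3 hBB4 using step2
  let q : ℕ → {C : Set ℕ // C ∈ S.ideal X} := fun j => Nat.rec ⟨∅, hI.empty_mem⟩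
    (fun j C => ⟨C.1 ∪ BB j C, hI.union_mem _ C.2 _ (hBB1 j C)⟩) j
  have hq : ∀ j, (q (j + 1)).1 = (q j).1 ∪ BB j (q j) := fun j => rfl
  have hmono : ∀ i j, i ≤ j → (q i).1 ⊆ (q j).1 := by
    intro i j hij
    induction j, hij using Nat.le_induction with
    | base => exact subset_rfl
    | succ j hj ih =>
      rw [hq]
      exact ih.trans Set.subset_union_left
  let B : ℕ → Set ℕ := fun j => BB j (q j)
  have hdis : ∀ i j, i < j → ∀ x, x ∈ B i → x ∉ B j := by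
    intro i j hij x hx hx'
    apply hBB2 j (q j) x hx'
    apply hmono (i + 1) j hij
    rw [hq]
    exact Or.inr hx
  have hU : ∀ J : Set ℕ, (⋃ j ∈ J, B j) ∈ S.ideal X :=
    S.iUnion_mem hX B (fun j => hBB1 j (q j)) (fun j => hBB3 j (q j))
  obtain ⟨K, hK⟩ := Pool.Agent.H827R3.nb_singleton (fun k J => μ k (⋃ j ∈ J, B j)) (by
    intro k
    constructor
    · intro J J' hJJ
      show μ k (⋃ j ∈ J ∪ J', B j) = _
      rw [Set.biUnion_union]
      refine (h k).1 _ (Or.inl (hU J)) _ (Or.inl (hU J')) ?_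
      rw [Set.disjoint_left]
      intro x hx hx'
      simp only [Set.mem_iUnion, exists_prop] at hx hx'
      obtain ⟨i, hi, hxi⟩ := hx
      obtain ⟨j, hj, hxj⟩ := hx'
      rcases lt_trichotomy i j with hij | hij | hij
      · exact hdis i j hij x hxi hxj
      · subst hij
        exact Set.disjoint_left.1 hJJ hi hj
      · exact hdis j i hij x hxj hxi
    · obtain ⟨C, hC⟩ := (h k).2
      exact ⟨C, fun J => hC _ (Or.inl (hU J))⟩) (by
    intro J
    exact hb _ (Or.inl (hU J)))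
  obtain ⟨r, hr⟩ := exists_nat_gt K
  have h1 := hK (nn r (q r)) r
  have h2 := hBB4 r (q r)
  simp only [Set.mem_singleton_iff, Set.iUnion_iUnion_eq_left] at h1
  have h3 : |μ (nn r (q r)) (BB r (q r))| ≤ K := h1
  linarith

theorem nikodym {X : Set ℕ} (hX : X.Infinite) : Nikodym (alg (S.ideal X)) :=
  nikodym_of_key (S.isIdeal hX) (S.key hX)

end Sys

end Pool.Agent.H629.NK
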