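import Pool.Agent.H629.NK.Block
import Pool.Agent.H629.NK.Defs

/-!
# The ideals of the hypergraph system

Helper file for problem MP_64e5f1_lc.
-/

set_option autoImplicit false

namespace Pool.Agent.H629.NK

open Finset Filter Topology
open scoped ENNReal

/-- A sequence of hypergraphs on consecutive intervals of `ω`. -/
structure Sys where
  a : ℕ → ℕ
  d : ℕ → ℕ
  H : ℕ → Set (Finset ℕ)
  a0 : a 0 = 0
  step : ∀ n, a n < a (n + 1)
  two_le : ∀ n, 2 ≤ d n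
  edge : ∀ n, ∀ e ∈ H n, e ⊆ Ico (a n) (a (n + 1)) ∧ e.card = d n
  small : ∀ n, (n + 1) * a n ≤ d n
  chrom : ∀ n, ∀ c : ℕ → ℕ, (∀ x ∈ Ico (a n) (a (n + 1)), c x < (n + 1) ^ 2 + a n + 2) →
    ∃ e ∈ H n, ∃ i, ∀ x ∈ e, c x = i
  sparse : ∀ n, ∀ t ≤ d n, ∀ ν : ℕ → ℝ, (∀ x, 0 ≤ ν x) → ∃ A ⊆ Ico (a n) (a (n + 1)),
    (∀ e ∈ H n, (A ∩ e).card ≤ t) ∧
      (t : ℝ) / (3 * d n) * ∑ x ∈ Ico (a n) (a (n + 1)), ν x ≤ ∑ x ∈ A, ν x

theorem exists_sys : Nonempty Sys := by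
  classical
  choose b hb H h1 h2 h3 using fun (n a : ℕ) =>
    block ((n + 1) * a + 2) ((n + 1) ^ 2 + a + 2) a (by omega) (by omega)
  let a : ℕ → ℕ := fun n => Nat.rec 0 (fun n a => b n a) n
  have ha : ∀ n, a (n + 1) = b n (a n) := fun n => rfl
  refine ⟨⟨a, fun n => (n + 1) * a n + 2, fun n => H n (a n), rfl, fun n => hb n (a n),
    fun n => by omega, fun n => h1 n (a n), fun n => by omega, fun n => h2 n (a n),
    fun n => h3 n (a n)⟩⟩

open Classical in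
/-- The points of `e` in `A`. -/
noncomputable def cset (e : Finset ℕ) (A : Set ℕ) : Finset ℕ := e.filter (fun x => x ∈ A)

theorem mem_cset {e : Finset ℕ} {A : Set ℕ} {x : ℕ} : x ∈ cset e A ↔ x ∈ e ∧ x ∈ A := by
  classical
  simp [cset]

/-- The number of points of `e` in `A`. -/
noncomputable def cnt (e : Finset ℕ) (A : Set ℕ) : ℕ := (cset e A).card

theorem cnt_mono (e : Finset ℕ) {A B : Set ℕ} (h : ∀ x ∈ e, x ∈ A → x ∈ B) :
    cnt e A ≤ cnt e B := by
  apply card_le_card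
  intro x hx
  rw [mem_cset] at hx ⊢
  exact ⟨hx.1, h x hx.1 hx.2⟩

theorem cnt_union (e : Finset ℕ) (A B : Set ℕ) : cnt e (A ∪ B) ≤ cnt e A + cnt e B := by
  classical
  refine le_trans (card_le_card ?_) (card_union_le (cset e A) (cset e B))
  intro x hx
  rw [mem_union, mem_cset, mem_cset]
  rw [mem_cset] at hx
  rcases hx.2 with h | h
  · exact Or.inl ⟨hx.1, h⟩
  · exact Or.inr ⟨hx.1, h⟩

theorem cnt_union_disjoint (e : Finset ℕ) {A B : Set ℕ} (h : Disjoint A B) :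
    cnt e (A ∪ B) = cnt e A + cnt e B := by
  classical
  unfold cnt
  rw [← card_union_of_disjoint]
  · congr 1
    ext x
    simp only [mem_cset, mem_union, Set.mem_union]
    tauto
  · rw [disjoint_left]
    intro x hx hx'
    exact Set.disjoint_left.1 h (mem_cset.1 hx).2 (mem_cset.1 hx').2

theorem cnt_le (e : Finset ℕ) (A : Set ℕ) : cnt e A ≤ e.card :=
  card_le_card (fun _ hx => (mem_cset.1 hx).1)

theorem cnt_full (e : Finset ℕ) {A : Set ℕ} (h : ∀ x ∈ e, x ∈ A) : cnt e A = e.card := by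
  unfold cnt
  congr 1
  ext x
  rw [mem_cset]
  exact ⟨fun h => h.1, fun hx => ⟨hx, h x hx⟩⟩

theorem cnt_zero (e : Finset ℕ) {A : Set ℕ} (h : ∀ x ∈ e, x ∉ A) : cnt e A = 0 := by
  unfold cnt
  rw [card_eq_zero]
  ext x
  simp only [mem_cset, notMem_empty, iff_false, not_and]
  exact h x

theorem cnt_empty (e : Finset ℕ) : cnt e ∅ = 0 := cnt_zero e (fun _ _ h => h)

theorem cnt_finset (e s : Finset ℕ) {A : Set ℕ} (h : ∀ x ∈ e, x ∈ A → x ∈ s) :
    cnt e A ≤ s.card := by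
  apply card_le_card
  intro x hx
  rw [mem_cset] at hx
  exact h x hx.1 hx.2

namespace Sys

variable (S : Sys)

theorem strictMono : StrictMono S.a := strictMono_nat_of_lt_succ S.step

theorem le_a (n : ℕ) : n ≤ S.a n := S.strictMono.id_le n

theorem d_pos (n : ℕ) : (0 : ℝ) < S.d n := by
  have := S.two_le n
  have : 0 < S.d n := by omega
  exact_mod_cast this

theorem edge_mem {n : ℕ} {e : Finset ℕ} (he : e ∈ S.H n) {x : ℕ} (hx : x ∈ e) :
    S.a n ≤ x ∧ x < S.a (n + 1) := mem_Ico.1 ((S.edge n e he).1 hx)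

theorem edge_ne {n : ℕ} : ∃ e, e ∈ S.H n := by
  obtain ⟨e, he, -⟩ := S.chrom n (fun _ => 0) (fun _ _ => by omega)
  exact ⟨e, he⟩

theorem exists_blk (x : ℕ) : ∃ n, S.a n ≤ x ∧ x < S.a (n + 1) := by
  have h : ∃ n, x < S.a (n + 1) := ⟨x, (Nat.lt_succ_self x).trans_le (S.le_a (x + 1))⟩
  classical
  refine ⟨Nat.find h, ?_, Nat.find_spec h⟩
  rcases Nat.eq_zero_or_pos (Nat.find h) with h0 | h0
  · rw [h0, S.a0]
    exact Nat.zero_le _
  · have := Nat.find_min h (Nat.sub_lt h0 Nat.one_pos)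
    rw [Nat.sub_add_cancel h0] at this
    exact not_lt.1 this

/-- The index of the interval containing `x`. -/
noncomputable def blk (x : ℕ) : ℕ := (S.exists_blk x).choose

theorem blk_spec (x : ℕ) : S.a (S.blk x) ≤ x ∧ x < S.a (S.blk x + 1) := (S.exists_blk x).choose_spec

theorem blk_unique {x n : ℕ} (h : S.a n ≤ x) (h' : x < S.a (n + 1)) : S.blk x = n := by
  have h1 := S.blk_spec x
  have h2 : S.a n < S.a (S.blk x + 1) := h.trans_lt h1.2
  have h3 : S.a (S.blk x) < S.a (n + 1) := h1.1.trans_lt h'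
  rw [S.strictMono.lt_iff_lt] at h2 h3
  omega

theorem blk_edge {n : ℕ} {e : Finset ℕ} (he : e ∈ S.H n) {x : ℕ} (hx : x ∈ e) : S.blk x = n :=
  S.blk_unique (S.edge_mem he hx).1 (S.edge_mem he hx).2

/-- The ideal attached to a set `X` of indices. -/
def ideal (X : Set ℕ) : Set (Set ℕ) :=
  {A | ∀ ε : ℝ, 0 < ε → ∃ n₀ : ℕ, ∀ n ≥ n₀, n ∈ X → ∀ e ∈ S.H n, (cnt e A : ℝ) ≤ ε * S.d n}

theorem isIdeal {X : Set ℕ} (hX : X.Infinite) : IsIdeal (S.ideal X) where
  finite_mem := by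
    intro A hA ε hε
    obtain ⟨m, hm⟩ := hA.bddAbove
    refine ⟨m + 1, fun n hn _ e he => ?_⟩
    rw [cnt_zero]
    · have := S.d_pos n
      push_cast
      positivity
    · intro x hx hxA
      have h1 := hm hxA
      have h2 := (S.edge_mem he hx).1
      have h3 := S.le_a n
      omega
  subset_mem := by
    intro A hA B hBA ε hε
    obtain ⟨n₀, h⟩ := hA ε hε
    refine ⟨n₀, fun n hn hnX e he => le_trans ?_ (h n hn hnX e he)⟩
    exact_mod_cast cnt_mono e (fun x _ hx => hBA hx)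
  union_mem := by
    intro A hA B hB ε hε
    obtain ⟨n₀, h⟩ := hA (ε / 2) (by positivity)
    obtain ⟨n₁, h'⟩ := hB (ε / 2) (by positivity)
    refine ⟨max n₀ n₁, fun n hn hnX e he => ?_⟩
    have h1 := h n ((le_max_left _ _).trans hn) hnX e he
    have h2 := h' n ((le_max_right _ _).trans hn) hnX e he
    have h3 : (cnt e (A ∪ B) : ℝ) ≤ cnt e A + cnt e B := by exact_mod_cast cnt_union e A B
    linarith
  univ_notMem := by
    intro h
    obtain ⟨n₀, h⟩ := h (1 / 2) (by positivity)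
    obtain ⟨n, hn, hn0⟩ := hX.exists_gt n₀
    obtain ⟨e, he⟩ := S.edge_ne (n := n)
    have h1 := h n hn0.le hn e he
    rw [cnt_full e (fun x _ => Set.mem_univ x), (S.edge n e he).2] at h1
    have := S.d_pos n
    linarith

/-- Sets with few points in each edge are in the ideal. -/
theorem mem_ideal_of_le {X A : Set ℕ} (h : ∀ n ∈ X, ∀ e ∈ S.H n, cnt e A ≤ S.a n + 1) :
    A ∈ S.ideal X := by
  intro ε hε
  obtain ⟨k, hk⟩ := exists_nat_gt (2 / ε)
  refine ⟨k + 1, fun n hn hnX e he => ?_⟩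
  have h1 := h n hnX e he
  have h2 := S.small n
  have h3 := S.le_a n
  have h4 : S.a n + 1 ≤ 2 * S.a n := by omega
  have h5 : (cnt e A : ℝ) ≤ 2 * S.a n := by exact_mod_cast h1.trans h4
  have h6 : ((n : ℝ) + 1) * S.a n ≤ S.d n := by exact_mod_cast h2
  have h7 : 2 / ε ≤ (n : ℝ) + 1 := by
    have : (k : ℝ) + 1 ≤ n := by exact_mod_cast hn
    linarith
  have h8 : 2 ≤ ε * ((n : ℝ) + 1) := by
    rw [div_le_iff₀ hε] at h7
    linarith
  calc (cnt e A : ℝ) ≤ 2 * S.a n := h5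
    _ ≤ (ε * ((n : ℝ) + 1)) * S.a n := mul_le_mul_of_nonneg_right h8 (Nat.cast_nonneg _)
    _ = ε * (((n : ℝ) + 1) * S.a n) := by ring
    _ ≤ ε * S.d n := mul_le_mul_of_nonneg_left h6 hε.le

/-- The ideal is tall. -/
theorem tall (X : Set ℕ) {R : Set ℕ} (hR : R.Infinite) : ∃ A ⊆ R, A.Infinite ∧ A ∈ S.ideal X := by
  refine ⟨{x | x ∈ R ∧ ∀ y ∈ R, S.blk y = S.blk x → x ≤ y}, fun x hx => hx.1, ?_, ?_⟩
  · intro hfin
    obtain ⟨m, hm⟩ := hfin.bddAbove
    obtain ⟨y, hy, hym⟩ := hR.exists_gt (S.a (m + 1))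
    classical
    have hex : ∃ z, z ∈ R ∧ S.blk z = S.blk y := ⟨y, hy, rfl⟩
    have h1 := Nat.find_spec hex
    have h2 : Nat.find hex ∈ {x | x ∈ R ∧ ∀ y ∈ R, S.blk y = S.blk x → x ≤ y} := by
      refine ⟨h1.1, fun w hw hwb => ?_⟩
      exact Nat.find_min' hex ⟨hw, hwb.trans h1.2⟩
    have h3 := hm h2
    have h4 : S.a (m + 1) < S.a (S.blk y + 1) := hym.trans (S.blk_spec y).2
    rw [S.strictMono.lt_iff_lt] at h4
    have h5 := (S.blk_spec (Nat.find hex)).1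
    rw [h1.2] at h5
    have h6 := S.le_a (S.blk y)
    omega
  · refine S.mem_ideal_of_le (fun n _ e he => ?_)
    have : cnt e {x | x ∈ R ∧ ∀ y ∈ R, S.blk y = S.blk x → x ≤ y} ≤ 1 := by
      refine card_le_one.2 ?_
      intro x hx y hy
      rw [mem_cset] at hx hy
      have h1 := S.blk_edge he hx.1
      have h2 := S.blk_edge he hy.1
      exact le_antisymm (hx.2.2 y hy.2.1 (h2.trans h1.symm)) (hy.2.2 x hx.2.1 (h1.trans h2.symm))
    omega

/-- The submeasures. -/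
noncomputable def g (p : ℕ × Finset ℕ) (A : Set ℕ) : ℝ≥0∞ :=
  ENNReal.ofReal ((cnt p.2 A : ℝ) / S.d p.1)

theorem g_empty (p : ℕ × Finset ℕ) : S.g p ∅ = 0 := by simp [g, cnt_empty]

theorem g_mono (p : ℕ × Finset ℕ) {A B : Set ℕ} (h : A ⊆ B) : S.g p A ≤ S.g p B := by
  apply ENNReal.ofReal_le_ofReal
  apply div_le_div_of_nonneg_right _ (S.d_pos p.1).le
  exact_mod_cast cnt_mono p.2 (fun x _ hx => h hx)

theorem g_add (p : ℕ × Finset ℕ) {A B : Set ℕ} (h : Disjoint A B) :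
    S.g p (A ∪ B) = S.g p A + S.g p B := by
  have := S.d_pos p.1
  unfold g
  rw [← ENNReal.ofReal_add (by positivity) (by positivity), cnt_union_disjoint _ h]
  congr 1
  push_cast
  ring

theorem g_union (p : ℕ × Finset ℕ) (A B : Set ℕ) : S.g p (A ∪ B) ≤ S.g p A + S.g p B := by
  rw [← Set.union_sdiff_self, S.g_add p Set.disjoint_sdiff_right]
  exact add_le_add le_rfl (S.g_mono p Set.sdiff_subset)

theorem g_le_one {p : ℕ × Finset ℕ} (hp : p.2 ∈ S.H p.1) (A : Set ℕ) : S.g p A ≤ 1 := by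
  rw [← ENNReal.ofReal_one]
  apply ENNReal.ofReal_le_ofReal
  rw [div_le_one (S.d_pos p.1), ← (S.edge p.1 p.2 hp).2]
  exact_mod_cast cnt_le p.2 A

/-- Index set of the supremum. -/
abbrev Ix (X : Set ℕ) : Type := {p : ℕ × Finset ℕ // p.1 ∈ X ∧ p.2 ∈ S.H p.1}

/-- The submeasure attached to `X`. -/
noncomputable def phi (X : Set ℕ) (A : Set ℕ) : ℝ≥0∞ := ⨆ p : S.Ix X, S.g p.1 A

theorem phi_lsc (X : Set ℕ) : IsLscSubmeasure (S.phi X) := by
  refine isLsc_iSup (fun (p : S.Ix X) A => S.g p.1 A) (fun p => S.g_empty _)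
    (fun p A B h => S.g_mono _ h) (fun p A B => S.g_union _ A B) ?_ ?_
  · intro p
    refine ⟨S.a (p.1.1 + 1), fun A => ?_⟩
    apply ENNReal.ofReal_le_ofReal
    apply div_le_div_of_nonneg_right _ (S.d_pos p.1.1).le
    have : cnt p.1.2 A ≤ cnt p.1.2 (A ∩ Set.Iio (S.a (p.1.1 + 1))) :=
      cnt_mono p.1.2 (fun x hx hxA => ⟨hxA, (S.edge_mem p.2.2 hx).2⟩)
    exact_mod_cast this
  · intro n
    exact (iSup_le (fun p : S.Ix X => S.g_le_one p.2.2 _)).trans_lt ENNReal.one_lt_top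

theorem phi_nonpath (X : Set ℕ) : NonPathologicalSubmeasure (S.phi X) := by
  intro A
  constructor
  · rintro r ⟨μ, -, h, rfl⟩
    exact h A
  · intro b hb
    apply iSup_le
    intro p
    apply hb
    refine ⟨S.g p.1, ⟨S.g_empty _, fun A B h => S.g_add _ h⟩, ?_, rfl⟩
    intro B
    exact le_iSup (fun p : S.Ix X => S.g p.1 B) p

theorem exh_phi (X : Set ℕ) : S.ideal X = Exh (S.phi X) := by
  ext A
  constructor
  · intro hA
    show Tendsto (fun n : ℕ => S.phi X (A \ Set.Iio n)) atTop (𝓝 0)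
    rw [ENNReal.tendsto_atTop_zero]
    intro ε hε
    obtain ⟨δ, hδ, hδε⟩ : ∃ δ : ℝ, 0 < δ ∧ ENNReal.ofReal δ ≤ ε := by
      by_cases htop : ε = ⊤
      · exact ⟨1, one_pos, by simp [htop]⟩
      · exact ⟨ε.toReal, ENNReal.toReal_pos hε.ne' htop, ENNReal.ofReal_toReal_le⟩
    obtain ⟨n₀, hn₀⟩ := hA δ hδ
    refine ⟨S.a n₀, fun m hm => iSup_le (fun p => le_trans ?_ hδε)⟩
    apply ENNReal.ofReal_le_ofReal
    rw [div_le_iff₀ (S.d_pos p.1.1)]
    by_cases hp : p.1.1 < n₀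
    · rw [cnt_zero]
      · have := S.d_pos p.1.1
        push_cast
        positivity
      · intro x hx hxA
        have h1 := (S.edge_mem p.2.2 hx).2
        have h2 : S.a (p.1.1 + 1) ≤ S.a n₀ := S.strictMono.monotone hp
        exact hxA.2 (show x < m by omega)
    · refine le_trans ?_ (hn₀ p.1.1 (not_lt.1 hp) p.2.1 p.1.2 p.2.2)
      have : cnt p.1.2 (A \ Set.Iio m) ≤ cnt p.1.2 A := cnt_mono p.1.2 (fun x _ hx => hx.1)
      exact_mod_cast this
  · intro hA ε hε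
    have h1 : Tendsto (fun n : ℕ => S.phi X (A \ Set.Iio n)) atTop (𝓝 0) := hA
    rw [ENNReal.tendsto_atTop_zero] at h1
    obtain ⟨n₀, h⟩ := h1 (ENNReal.ofReal ε) (by simpa using hε)
    refine ⟨n₀, fun n hn hnX e he => ?_⟩
    have h2 := (le_iSup (fun p : S.Ix X => S.g p.1 (A \ Set.Iio n₀)) ⟨(n, e), hnX, he⟩).trans
      (h n₀ le_rfl)
    have h3 : (cnt e (A \ Set.Iio n₀) : ℝ) / S.d n ≤ ε := (ENNReal.ofReal_le_ofReal_iff hε.le).1 h2
    rw [div_le_iff₀ (S.d_pos n)] at h3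
    refine le_trans ?_ h3
    have : cnt e A ≤ cnt e (A \ Set.Iio n₀) := by
      refine cnt_mono e (fun x hx hxA => ⟨hxA, ?_⟩)
      have h4 := (S.edge_mem he hx).1
      have h5 := S.le_a n
      exact not_lt.2 (by omega : n₀ ≤ x)
    exact_mod_cast this

theorem nonPathological (X : Set ℕ) : NonPathological (S.ideal X) :=
  ⟨S.phi X, S.phi_lsc X, S.phi_nonpath X, S.exh_phi X⟩

end Sys

end Pool.Agent.H629.NK
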